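import Pool.Agent.Y385.GD.Geo5

namespace Pool.Agent.Y385.GD

open Module Submodule

section AG

variable {F : Type} [Field F] {V : Type} [AddCommGroup V] [Module F V]

/-- The vector of an affine point. -/
def av (x : V) : F × V := (1, x)

lemma av_inj {x y : V} (h : (av x : F × V) ∈ span F {(av y : F × V)}) : x = y := by
  obtain ⟨a, ha⟩ := Submodule.mem_span_singleton.1 h
  have h1 : a * 1 = 1 := congrArg Prod.fst ha
  have h2 : a • y = x := congrArg Prod.snd ha
  rw [mul_one] at h1
  rw [← h2, h1, one_smul]

lemma av_diff {H : Submodule F (F × V)} {x y : V} (hx : av x ∈ H) (hy : av y ∈ H) :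
    ((0 : F), x - y) ∈ H := by
  have := H.sub_mem hx hy
  have e : (av x : F × V) - av y = ((0 : F), x - y) := by
    simp [av]
  rwa [e] at this

lemma av_add {H : Submodule F (F × V)} {x u : V} (hx : av x ∈ H) (hu : ((0 : F), u) ∈ H) :
    av (x + u) ∈ H := by
  have := H.add_mem hx hu
  have e : (av x : F × V) + ((0 : F), u) = av (x + u) := by
    simp [av]
  rwa [e] at this

lemma ag_adm (H : Submodule F (F × V)) (y : V) (hy : av y ∈ H) :
    span F ((av : V → F × V) '' blk av H) = H := by
  apply le_antisymm
  · rw [Submodule.span_le]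
    rintro _ ⟨x, hx, rfl⟩
    exact hx
  · rintro ⟨c, w⟩ hv
    set S := span F ((av : V → F × V) '' blk av H) with hS
    have hpt : ∀ x : V, av x ∈ H → av x ∈ S := fun x hx => Submodule.subset_span ⟨x, hx, rfl⟩
    have h0 : ((0 : F), w - c • y) ∈ H := by
      have := H.sub_mem hv (H.smul_mem c hy)
      have e : ((c, w) : F × V) - c • av y = ((0 : F), w - c • y) := by simp [av]
      rwa [e] at this
    have h1 := hpt _ (av_add hy h0)
    have h2 := S.sub_mem h1 (hpt y hy)
    have h3 := S.add_mem h2 (S.smul_mem c (hpt y hy))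
    have e : (av (y + (w - c • y)) : F × V) - av y + c • av y = (c, w) := by
      simp [av]
    rwa [e] at h3

lemma exists_dir {H : Submodule F (F × V)} [FiniteDimensional F V] (x : V) (hx : av x ∈ H)
    (K : Submodule F (F × V)) (hxK : av x ∈ K) (hlt : finrank F K < finrank F H) :
    ∃ u : V, ((0 : F), u) ∈ H ∧ ((0 : F), u) ∉ K := by
  have h1 : ¬ H ≤ K := fun hle => by
    have := Submodule.finrank_mono hle
    omega
  obtain ⟨⟨c, w⟩, hh, hhx⟩ := SetLike.not_le_iff_exists.1 h1
  have e : ((c, w) : F × V) - c • av x = ((0 : F), w - c • x) := by simp [av]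
  refine ⟨w - c • x, ?_, ?_⟩
  · rw [← e]; exact H.sub_mem hh (H.smul_mem c hx)
  · intro hK
    apply hhx
    rw [← e] at hK
    have := K.add_mem hK (K.smul_mem c hxK)
    rwa [sub_add_cancel] at this

lemma ag_reg (H : Submodule F (F × V)) [FiniteDimensional F V]
    (hr : 3 ≤ finrank F H ∨ (2 ≤ finrank F H ∧ ∃ l : F, l ≠ 0 ∧ l ≠ 1)) (x : V)
    (hx : av x ∈ H) :
    (av x : F × V) ∈ span F ((av : V → F × V) '' (blk av H \ {x})) := by
  set S := span F ((av : V → F × V) '' (blk av H \ {x})) with hS
  have hpt : ∀ y : V, av y ∈ H → y ≠ x → av y ∈ S := fun y hy hyx =>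
    Submodule.subset_span ⟨y, ⟨hy, hyx⟩, rfl⟩
  have hx0 : (av x : F × V) ≠ 0 := fun h => one_ne_zero (congrArg Prod.fst h)
  rcases hr with hr | ⟨hr, l, hl0, hl1⟩
  · obtain ⟨u, hu, huK⟩ := exists_dir x hx (span F {av x}) (Submodule.mem_span_singleton_self _) (by
      rw [finrank_span_singleton hx0]; omega)
    have hlt : finrank F ↥(span F {av x} ⊔ span F {((0 : F), u)}) < finrank F H := by
      have := finrank_sup_single_le (span F {(av x : F × V)}) ((0 : F), u)
      rw [finrank_span_singleton hx0] at this
      omega
    obtain ⟨w, hw, hwK⟩ := exists_dir x hx (span F {av x} ⊔ span F {((0 : F), u)})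
      ((le_sup_left : span F {(av x : F × V)} ≤ _) (Submodule.mem_span_singleton_self _)) hlt
    have hu0 : u ≠ 0 := by
      rintro rfl
      exact huK (by
        have : ((0 : F), (0 : V)) = 0 := rfl
        rw [this]; exact Submodule.zero_mem _)
    have hw0 : w ≠ 0 := by
      rintro rfl
      exact hwK (by
        have : ((0 : F), (0 : V)) = 0 := rfl
        rw [this]; exact Submodule.zero_mem _)
    have huw : u + w ≠ 0 := by
      intro h
      apply hwK
      have : w = -u := (neg_eq_of_add_eq_zero_right h).symm
      rw [this]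
      have h1 : ((0 : F), u) ∈ span F {av x} ⊔ span F {((0 : F), u)} :=
        (le_sup_right : span F {((0 : F), u)} ≤ _) (Submodule.mem_span_singleton_self _)
      have := Submodule.neg_mem _ h1
      simpa using this
    have h1 := hpt (x + u) (av_add hx hu) (by simpa using hu0)
    have h2 := hpt (x + w) (av_add hx hw) (by simpa using hw0)
    have huwH : ((0 : F), u + w) ∈ H := by
      have := H.add_mem hu hw
      simpa using this
    have h3 := hpt (x + (u + w)) (av_add hx huwH) (by
      intro h
      exact huw (by simpa using h))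
    have h4 := S.sub_mem (S.add_mem h1 h2) h3
    have e : (av (x + u) : F × V) + av (x + w) - av (x + (u + w)) = av x := by
      simp only [av, Prod.mk_add_mk, Prod.mk_sub_mk, add_sub_cancel_right]
      congr 1
      abel
    rwa [e] at h4
  · obtain ⟨u, hu, huK⟩ := exists_dir x hx (span F {av x}) (Submodule.mem_span_singleton_self _) (by
      rw [finrank_span_singleton hx0]; omega)
    have hu0 : u ≠ 0 := by
      rintro rfl
      exact huK (by
        have : ((0 : F), (0 : V)) = 0 := rfl
        rw [this]; exact Submodule.zero_mem _)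
    have hlu : ((0 : F), l • u) ∈ H := by
      have := H.smul_mem l hu
      simpa using this
    have h1 := hpt (x + u) (av_add hx hu) (by simpa using hu0)
    have h2 := hpt (x + l • u) (av_add hx hlu) (by
      intro h
      have : l • u = 0 := by simpa using h
      rcases smul_eq_zero.1 this with h | h
      · exact hl0 h
      · exact hu0 h)
    have h3 := S.sub_mem (S.smul_mem (1 - l)⁻¹ h2) (S.smul_mem (l * (1 - l)⁻¹) h1)
    have hne : (1 : F) - l ≠ 0 := sub_ne_zero.2 (Ne.symm hl1)
    have e : (1 - l)⁻¹ • (av (x + l • u) : F × V) - (l * (1 - l)⁻¹) • av (x + u) = av x := by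
      simp only [av, Prod.smul_mk, Prod.mk_sub_mk, smul_eq_mul, mul_one]
      congr 1
      · field_simp
      · rw [smul_add, smul_add, smul_smul, mul_comm (1 - l)⁻¹ l]
        have : (1 - l)⁻¹ • x + (l * (1 - l)⁻¹) • u - ((l * (1 - l)⁻¹) • x + (l * (1 - l)⁻¹) • u) =
            ((1 - l)⁻¹ - l * (1 - l)⁻¹) • x := by rw [sub_smul]; abel
        rw [this]
        have : (1 - l)⁻¹ - l * (1 - l)⁻¹ = 1 := by field_simp
        rw [this, one_smul]
    rwa [e] at h3

lemma ag_card [Finite F] [FiniteDimensional F V] (H : Submodule F (F × V)) (y : V)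
    (hy : av y ∈ H) : (blk (av : V → F × V) H).ncard = Nat.card F ^ (finrank F H - 1) := by
  have : Finite V := Module.finite_of_finite F
  -- the direction space
  have h1 := LinearMap.finrank_range_add_finrank_ker ((LinearMap.fst F F V).domRestrict H)
  have hrange : LinearMap.range ((LinearMap.fst F F V).domRestrict H) = ⊤ := by
    rw [LinearMap.range_eq_top]
    intro c
    exact ⟨⟨c • av y, H.smul_mem c hy⟩, by simp [av]⟩
  rw [hrange, finrank_top, finrank_self] at h1
  have h2 : Nat.card ↥(LinearMap.ker ((LinearMap.fst F F V).domRestrict H)) =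
      Nat.card F ^ finrank F ↥(LinearMap.ker ((LinearMap.fst F F V).domRestrict H)) :=
    Module.natCard_eq_pow_finrank (K := F) (V := ↥(LinearMap.ker ((LinearMap.fst F F V).domRestrict H)))
  have h3 : finrank F H - 1 = finrank F ↥(LinearMap.ker ((LinearMap.fst F F V).domRestrict H)) := by
    omega
  rw [h3, ← h2]
  rw [← Nat.card_coe_set_eq]
  refine Nat.card_congr
    { toFun := fun x => ⟨⟨((0 : F), x.1 - y), av_diff x.2 hy⟩, by simp⟩
      invFun := fun z => ⟨y + z.1.1.2, ?_⟩
      left_inv := fun x => by simp
      right_inv := fun z => ?_ }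
  · apply av_add hy
    have hz : z.1.1.1 = 0 := LinearMap.mem_ker.1 z.2
    have : ((0 : F), z.1.1.2) = z.1.1 := by rw [← hz]
    rw [this]
    exact z.1.2
  · have hz : z.1.1.1 = 0 := LinearMap.mem_ker.1 z.2
    apply Subtype.ext
    apply Subtype.ext
    apply Prod.ext
    · exact hz.symm
    · simp

lemma av_span_pair {x y z : V} {a b : F} (hab : a + b = 1) (hz : z = a • x + b • y) :
    (av z : F × V) ∈ span F {(av x : F × V), av y} := by
  rw [Submodule.mem_span_pair]
  refine ⟨a, b, ?_⟩
  rw [hz]
  simp [av, hab]

open Classical in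
lemma ag_transfer_two (l : F) (hl0 : l ≠ 0) (hl1 : l ≠ 1) (U : Set V) (W : Submodule F (F × V))
    (z : V) (hz : z ∈ U) (hzW : av z ∉ W)
    (h : ∀ A ⊆ U, A.ncard = 2 → (∃ u ∈ A, av u ∉ W) →
      ∀ y : V, av y ∈ span F ((av : V → F × V) '' A) → y ∈ U)
    (y : V) (hy : av y ∈ span F ((av : V → F × V) '' U)) : y ∈ U := by
  -- the direct rule
  have rule : ∀ u ∈ U, ∀ v ∈ U, (av u : F × V) ∉ W → ∀ a b : F, a + b = 1 → a • u + b • v ∈ U := by
    intro u hu v hv huW a b hab
    by_cases huv : u = v
    · rw [← huv, ← add_smul, hab, one_smul]; exact hu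
    · apply h {u, v}
      · rintro w (rfl | rfl)
        · exact hu
        · exact hv
      · exact Set.ncard_pair huv
      · exact ⟨u, Or.inl rfl, huW⟩
      · rw [Set.image_pair]
        exact av_span_pair hab rfl
  have scal : ∀ (a : F) (w : V), z + w ∈ U → z + a • w ∈ U := by
    intro a w hw
    have := rule z hz (z + w) hw hzW (1 - a) a (by ring)
    have e : (1 - a) • z + a • (z + w) = z + a • w := by
      rw [sub_smul, one_smul, smul_add]; abel
    rwa [e] at this
  have hne : (1 : F) - l ≠ 0 := sub_ne_zero.2 (Ne.symm hl1)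
  -- all affine combinations of two points of `U`
  have comb : ∀ w w' : V, z + w ∈ U → z + w' ∈ U → ∀ a b : F, a + b = 1 →
      z + (a • w + b • w') ∈ U := by
    intro w w' hw hw' a b hab
    have e0 : z + (a • w + b • w') = a • (z + w) + b • (z + w') := by
      rw [smul_add, smul_add]
      have : z = (a + b) • z := by rw [hab, one_smul]
      conv_lhs => rw [this, add_smul]
      abel
    by_cases h1 : (av (z + w) : F × V) ∈ W
    · by_cases h2 : (av (z + w') : F × V) ∈ W
      · have k1 := scal l w hw
        have k2 := scal l w' hw'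
        have k3 : (av (z + l • w) : F × V) ∉ W := by
          intro hmem
          apply hzW
          have := W.sub_mem hmem (W.smul_mem l h1)
          have h3 := W.smul_mem (1 - l)⁻¹ this
          have e : (1 - l)⁻¹ • ((av (z + l • w) : F × V) - l • av (z + w)) = av z := by
            simp only [av, Prod.smul_mk, Prod.mk_sub_mk, smul_eq_mul, mul_one]
            congr 1
            · field_simp
            · have : z + l • w - l • (z + w) = (1 - l) • z := by
                rw [smul_add, sub_smul, one_smul]; abel
              rw [this, smul_smul, inv_mul_cancel₀ hne, one_smul]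
          rwa [e] at h3
        have k4 := rule _ k1 _ k2 k3 a b hab
        have e1 : a • (z + l • w) + b • (z + l • w') = z + l • (a • w + b • w') := by
          have : z = (a + b) • z := by rw [hab, one_smul]
          conv_rhs => rw [this, add_smul]
          simp only [smul_add, smul_smul, mul_comm l]
          abel
        rw [e1] at k4
        have := scal l⁻¹ _ k4
        rwa [smul_smul, inv_mul_cancel₀ hl0, one_smul] at this
      · rw [e0, add_comm (a • (z + w))]
        exact rule _ hw' _ hw h2 b a (by rw [add_comm]; exact hab)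
    · rw [e0]
      exact rule _ hw _ hw' h1 a b hab
  let N : Submodule F V :=
    { carrier := {w | z + w ∈ U}
      add_mem' := by
        intro w w' hw hw'
        have h1 := scal l⁻¹ w hw
        have h2 := scal (1 - l)⁻¹ w' hw'
        have h3 := comb _ _ h1 h2 l (1 - l) (by ring)
        rwa [smul_smul, smul_smul, mul_inv_cancel₀ hl0, mul_inv_cancel₀ hne, one_smul,
          one_smul] at h3
      zero_mem' := by simpa using hz
      smul_mem' := fun a w hw => scal a w hw }
  let L : (F × V) →ₗ[F] V := LinearMap.snd F F V - (LinearMap.fst F F V).smulRight z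
  have hL : ∀ x : V, L (av x) = x - z := by
    intro x
    simp [L, av]
  have hle : span F ((av : V → F × V) '' U) ≤ N.comap L := by
    rw [Submodule.span_le]
    rintro _ ⟨u, hu, rfl⟩
    change L (av u) ∈ N
    rw [hL]
    change z + (u - z) ∈ U
    rwa [add_sub_cancel]
  have hyN : L (av y) ∈ N := hle hy
  rw [hL] at hyN
  have : z + (y - z) ∈ U := hyN
  rwa [add_sub_cancel] at this

open Classical in
lemma ag_transfer_three (h2 : ∀ a : F, a = 0 ∨ a = 1) (U : Set V) (W : Submodule F (F × V))
    (z : V) (hz : z ∈ U) (hzW : av z ∉ W)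
    (h : ∀ A ⊆ U, A.ncard = 3 → (∃ u ∈ A, av u ∉ W) →
      ∀ y : V, av y ∈ span F ((av : V → F × V) '' A) → y ∈ U)
    (y : V) (hy : av y ∈ span F ((av : V → F × V) '' U)) : y ∈ U := by
  have hchar : (1 : F) + 1 = 0 := by
    rcases h2 (1 + 1) with h | h
    · exact h
    · exfalso
      have : (1 : F) = 0 := by
        have h1 : (1 : F) + 1 - 1 = 1 - 1 := by rw [h]
        rwa [add_sub_cancel_right, sub_self] at h1
      exact one_ne_zero this
  have hvv : ∀ v : V, v + v = 0 := by
    intro v
    have : v + v = ((1 : F) + 1) • v := by rw [add_smul, one_smul]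
    rw [this, hchar, zero_smul]
  let N : Submodule F V :=
    { carrier := {w | z + w ∈ U}
      add_mem' := by
        intro w w' hw hw'
        by_cases e1 : w = 0
        · rw [e1, zero_add]; exact hw'
        by_cases e2 : w' = 0
        · rw [e2, add_zero]; exact hw
        by_cases e3 : w = w'
        · rw [e3, hvv]
          change z + 0 ∈ U
          rwa [add_zero]
        apply h {z, z + w, z + w'}
        · rintro u (rfl | rfl | rfl)
          · exact hz
          · exact hw
          · exact hw'
        · rw [Set.ncard_eq_three]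
          exact ⟨z, z + w, z + w', by simpa using e1, by simpa using e2,
            by simpa using e3, rfl⟩
        · exact ⟨z, Or.inl rfl, hzW⟩
        · have m1 : (av z : F × V) ∈ span F ((av : V → F × V) '' {z, z + w, z + w'}) :=
            Submodule.subset_span ⟨z, Or.inl rfl, rfl⟩
          have m2 : (av (z + w) : F × V) ∈ span F ((av : V → F × V) '' {z, z + w, z + w'}) :=
            Submodule.subset_span ⟨z + w, Or.inr (Or.inl rfl), rfl⟩
          have m3 : (av (z + w') : F × V) ∈ span F ((av : V → F × V) '' {z, z + w, z + w'}) :=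
            Submodule.subset_span ⟨z + w', Or.inr (Or.inr rfl), rfl⟩
          have m4 := Submodule.sub_mem _ (Submodule.add_mem _ m2 m3) m1
          have e : (av (z + w) : F × V) + av (z + w') - av z = av (z + (w + w')) := by
            simp only [av, Prod.mk_add_mk, Prod.mk_sub_mk, add_sub_cancel_right]
            congr 1
            abel
          rwa [e] at m4
      zero_mem' := by simpa using hz
      smul_mem' := by
        intro a w hw
        rcases h2 a with rfl | rfl
        · rw [zero_smul]
          change z + 0 ∈ U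
          rwa [add_zero]
        · rwa [one_smul] }
  let L : (F × V) →ₗ[F] V := LinearMap.snd F F V - (LinearMap.fst F F V).smulRight z
  have hL : ∀ x : V, L (av x) = x - z := by
    intro x
    simp [L, av]
  have hle : span F ((av : V → F × V) '' U) ≤ N.comap L := by
    rw [Submodule.span_le]
    rintro _ ⟨u, hu, rfl⟩
    change L (av u) ∈ N
    rw [hL]
    change z + (u - z) ∈ U
    rwa [add_sub_cancel]
  have hyN : L (av y) ∈ N := hle hy
  rw [hL] at hyN
  have : z + (y - z) ∈ U := hyN
  rwa [add_sub_cancel] at this

end AG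

open Classical in
/-- Affine geometry over a field with at least three elements, as a 2-design. -/
noncomputable def agGeo (F : Type) [Field F] [Finite F] (n r : ℕ) (hr : 2 ≤ r) (l : F)
    (hl0 : l ≠ 0) (hl1 : l ≠ 1) : Geo F (F × (Fin n → F)) (Fin n → F) n 2 r where
  c := (1, 0)
  j := LinearMap.inr F F (Fin n → F)
  j_inj := LinearMap.inr_injective
  φ := av
  φ_mem := fun y => ⟨y, by simp [av]⟩
  φ_surj := fun v _ => ⟨v, by simp [av]⟩
  φ_inj := fun x y h => av_inj h
  star := by
    intro v w A hA h
    have hA1 : A.ncard = 1 := by omega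
    obtain ⟨y, rfl⟩ := Set.ncard_eq_one.1 hA1
    refine ⟨y, rfl, ?_⟩
    rwa [Set.image_singleton] at h
  adm := fun H y hy => ag_adm H y hy
  reg := fun H hH x hx => ag_reg H (Or.inr ⟨by rw [hH]; exact hr, l, hl0, hl1⟩) x hx
  θ := fun d => Nat.card F ^ (d - 1)
  card := fun H y hy => ag_card H y hy
  θ_lt := by
    intro d hd
    have : 1 < Nat.card F := Finite.one_lt_card
    exact Nat.pow_lt_pow_right this (by omega)
  transfer := ag_transfer_two l hl0 hl1
  ht := by norm_num
  htr := hr

open Classical in
/-- Affine geometry over the field with two elements, as a 3-design. -/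
noncomputable def agGeo2 (F : Type) [Field F] [Finite F] (n r : ℕ) (hr : 3 ≤ r)
    (h2 : ∀ a : F, a = 0 ∨ a = 1) : Geo F (F × (Fin n → F)) (Fin n → F) n 3 r where
  c := (1, 0)
  j := LinearMap.inr F F (Fin n → F)
  j_inj := LinearMap.inr_injective
  φ := av
  φ_mem := fun y => ⟨y, by simp [av]⟩
  φ_surj := fun v _ => ⟨v, by simp [av]⟩
  φ_inj := fun x y h => av_inj h
  star := by
    intro v w A hA h
    have hA1 : A.ncard = 2 := by omega
    obtain ⟨y, y', hyy', rfl⟩ := Set.ncard_eq_two.1 hA1
    rw [Set.image_pair] at h
    obtain ⟨a, u, hu, hau⟩ := Submodule.mem_span_insert.1 h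
    obtain ⟨b, b', rfl⟩ := Submodule.mem_span_pair.1 hu
    have h1 : (1 : F) = b + b' := by
      have := congrArg Prod.fst hau
      simpa [av] using this
    rw [hau]
    rcases h2 b with rfl | rfl
    · refine ⟨y', Or.inr rfl, ?_⟩
      rw [zero_smul, zero_add]
      exact Submodule.mem_span_pair.2 ⟨a, b', rfl⟩
    · have hb' : b' = 0 := by
        have h3 : (1 : F) + 0 = 1 + b' := by rw [add_zero]; exact h1
        exact (add_left_cancel h3).symm
      refine ⟨y, Or.inl rfl, ?_⟩
      rw [hb', zero_smul, add_zero]
      exact Submodule.mem_span_pair.2 ⟨a, 1, rfl⟩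
  adm := fun H y hy => ag_adm H y hy
  reg := fun H hH x hx => ag_reg H (Or.inl (by rw [hH]; exact hr)) x hx
  θ := fun d => Nat.card F ^ (d - 1)
  card := fun H y hy => ag_card H y hy
  θ_lt := by
    intro d hd
    have : 1 < Nat.card F := Finite.one_lt_card
    exact Nat.pow_lt_pow_right this (by omega)
  transfer := ag_transfer_three h2
  ht := by norm_num
  htr := hr

end Pool.Agent.Y385.GD
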