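import Pool.Agent.Y385.GD.PG
import Pool.Agent.Y385.GD.AG

namespace Pool.Agent.Y385.GD

open Module Submodule Filter Topology
open scoped LinearAlgebra.Projectivization

/-- A design whose blocks include those of a design with the same parameters is equal to it. -/
lemma design_eq_of_subset {Q : Type} [Finite Q] {t k lam : ℕ} {D B : Set (Set Q)} (htk : t ≤ k)
    (hD : IsDesign t k lam D) (hB : IsDesign t k lam B) (h : D ⊆ B) : B = D := by
  apply Set.Subset.antisymm _ h
  intro b hb
  obtain ⟨A, hAb, hA⟩ := Set.exists_subset_card_eq (s := b) (n := t) (by rw [hB.1 b hb]; exact htk)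
  have h1 : {b ∈ D | A ⊆ b} ⊆ {b ∈ B | A ⊆ b} := fun c hc => ⟨h hc.1, hc.2⟩
  have h2 := Set.eq_of_subset_of_ncard_le h1 (by rw [hD.2 A hA, hB.2 A hA]) (Set.toFinite _)
  have h3 : b ∈ {b ∈ B | A ⊆ b} := ⟨hb, hAb⟩
  rw [← h2] at h3
  exact h3.1

/-- From small complements to the limit. -/
lemma limit_one (Q : ℕ → Type) [∀ n, Finite (Q n)] (D : ∀ n, Set (Set (Q n)))
    (P : ∀ n, Set (Set (Q n)) → Prop) (N0 : ℕ) (hsub : ∀ n S, P n S → S ⊆ D n)
    (hself : ∀ n, N0 ≤ n → P n (D n)) (hne : ∀ n, N0 ≤ n → 0 < (D n).ncard)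
    (hsmall : ∀ ε : ℝ, 0 < ε → ∃ N, ∀ n, N ≤ n → ∀ S, P n S →
      ((D n \ S).ncard : ℝ) ≤ ε * ((D n).ncard : ℝ)) :
    Tendsto (fun n => ((sInf {m : ℕ | ∃ S, P n S ∧ S.ncard = m} : ℕ) : ℝ) / ((D n).ncard : ℝ))
      atTop (𝓝 1) := by
  rw [Metric.tendsto_atTop]
  intro ε hε
  obtain ⟨N, hN⟩ := hsmall (ε / 2) (by positivity)
  refine ⟨max N N0, fun n hn => ?_⟩
  have hnN : N ≤ n := (le_max_left _ _).trans hn
  have hn0 : N0 ≤ n := (le_max_right _ _).trans hn
  have hset : {m : ℕ | ∃ S, P n S ∧ S.ncard = m}.Nonempty := ⟨_, D n, hself n hn0, rfl⟩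
  obtain ⟨S, hS, hSc⟩ := Nat.sInf_mem hset
  have hle : sInf {m : ℕ | ∃ S, P n S ∧ S.ncard = m} ≤ (D n).ncard :=
    Nat.sInf_le ⟨D n, hself n hn0, rfl⟩
  set μ := sInf {m : ℕ | ∃ S, P n S ∧ S.ncard = m}
  have hpos : (0:ℝ) < ((D n).ncard : ℝ) := by exact_mod_cast hne n hn0
  have h1 := hN n hnN S hS
  have h2 : (D n \ S).ncard + S.ncard = (D n).ncard :=
    Set.ncard_sdiff_add_ncard_of_subset (hsub n S hS) (Set.toFinite _)
  have h3 : ((D n \ S).ncard : ℝ) = ((D n).ncard : ℝ) - (μ : ℝ) := by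
    have : (((D n \ S).ncard + S.ncard : ℕ) : ℝ) = (((D n).ncard : ℕ) : ℝ) := by rw [h2]
    push_cast at this
    rw [hSc] at this
    linarith
  have hle' : (μ : ℝ) ≤ ((D n).ncard : ℝ) := by exact_mod_cast hle
  rw [h3] at h1
  rw [Real.dist_eq, abs_sub_lt_iff]
  constructor
  · have : (μ : ℝ) / ((D n).ncard : ℝ) ≤ 1 := by
      rw [div_le_one hpos]; exact hle'
    linarith
  · have : 1 - ε < (μ : ℝ) / ((D n).ncard : ℝ) := by
      rw [lt_div_iff₀ hpos]
      nlinarith
    linarith

/-- `S` is a defining set of the design `D`. -/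
def IsDefiningSet {Q : Type} (t k lam : ℕ) (D S : Set (Set Q)) : Prop :=
  S ⊆ D ∧ ∀ B, IsDesign t k lam B → S ⊆ B → B = D

lemma IsDefiningSet.classDefining {Q : Type} {t k lam : ℕ} {D S : Set (Set Q)}
    (h : IsDefiningSet t k lam D S) : IsClassDefiningSet t k lam D S := by
  refine ⟨h.1, fun B hB hSB => ⟨Equiv.refl Q, ?_⟩⟩
  rw [h.2 B hB hSB]
  simp

/-- The combination for a sequence of geometries. -/
theorem limits (F : Type) [Field F] [Fintype F] (t r k N0 : ℕ) (htk : t ≤ k)
    (wl : ℕ → ℕ) (hwl : ∀ n, n ≤ wl n) (V Q : ℕ → Type)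
    [∀ n, AddCommGroup (V n)] [∀ n, Module F (V n)] [∀ n, FiniteDimensional F (V n)]
    [∀ n, Finite (Q n)] (G : ∀ n, Geo F (V n) (Q n) (wl n) t r)
    (hdim : ∀ n, r + 1 ≤ n → r + 1 < finrank F (V n)) (lam : ℕ → ℕ)
    (hD : ∀ n, N0 ≤ n → IsDesign t k (lam n) (G n).D) :
    Tendsto (fun n => ((sInf {m : ℕ | ∃ S, IsDefiningSet t k (lam n) (G n).D S ∧ S.ncard = m} : ℕ)
      : ℝ) / ((G n).D.ncard : ℝ)) atTop (𝓝 1) ∧
    Tendsto (fun n => ((sInf {m : ℕ | ∃ S, IsClassDefiningSet t k (lam n) (G n).D S ∧ S.ncard = m}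
      : ℕ) : ℝ) / ((G n).D.ncard : ℝ)) atTop (𝓝 1) := by
  have hself : ∀ n, max N0 (r + 1) ≤ n → IsDefiningSet t k (lam n) (G n).D (G n).D := fun n hn =>
    ⟨Set.Subset.refl _, fun B hB hSB =>
      design_eq_of_subset htk (hD n ((le_max_left _ _).trans hn)) hB hSB⟩
  have hne : ∀ n, max N0 (r + 1) ≤ n → 0 < (G n).D.ncard := by
    intro n hn
    have hr1 : 1 ≤ r := (G n).ht.trans (G n).htr
    have h := (G n).card_blocks hr1 (((le_max_right _ _).trans hn).trans (hwl n))
    by_contra hcon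
    have h0 : (G n).D.ncard = 0 := by omega
    rw [h0] at h
    have hq : 0 < Fintype.card F ^ r := Nat.pow_pos Fintype.card_pos
    have h1 : (0:ℝ) < ((Fintype.card F ^ r : ℕ) : ℝ) := by exact_mod_cast hq
    have h2 : (0:ℝ) < ((Fintype.card F ^ r : ℕ) : ℝ) ^ wl n := by positivity
    rw [Nat.cast_zero, mul_zero] at h
    linarith
  have hsmall : ∀ ε : ℝ, 0 < ε → ∃ N, ∀ n, N ≤ n → ∀ S,
      IsClassDefiningSet t k (lam n) (G n).D S →
      (((G n).D \ S).ncard : ℝ) ≤ ε * ((G n).D.ncard : ℝ) := by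
    intro ε hε
    obtain ⟨N, hN⟩ := complement_small F t r ε hε
    refine ⟨max N (max N0 (r + 1)), fun n hn S hS => ?_⟩
    have hnN : N ≤ n := (le_max_left _ _).trans hn
    have hn1 : max N0 (r + 1) ≤ n := (le_max_right _ _).trans hn
    exact hN (wl n) (hnN.trans (hwl n)) (V n) (Q n) (G n) (hdim n ((le_max_right _ _).trans hn1)) k
      (lam n) (hD n ((le_max_left _ _).trans hn1)) S hS
  constructor
  · exact limit_one Q (fun n => (G n).D) (fun n S => IsDefiningSet t k (lam n) (G n).D S)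
      (max N0 (r + 1)) (fun n S h => h.1) hself hne (fun ε hε => by
        obtain ⟨N, hN⟩ := hsmall ε hε
        exact ⟨N, fun n hn S hS => hN n hn S hS.classDefining⟩)
  · exact limit_one Q (fun n => (G n).D) (fun n S => IsClassDefiningSet t k (lam n) (G n).D S)
      (max N0 (r + 1)) (fun n S h => h.1) (fun n hn => (hself n hn).classDefining) hne hsmall

/-- The flats of projective dimension `d` of `PG(n,q)`, as sets of points. -/
def pgFlats (F : Type) [Field F] (n d : ℕ) : Set (Set (ℙ F (Fin (n + 1) → F))) :=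
  {b | ∃ H : Submodule F (Fin (n + 1) → F), finrank F H = d + 1 ∧ b = {x | x.submodule ≤ H}}

/-- The flats of dimension `d` of `AG(n,q)`, as sets of points. -/
def agFlats (F : Type) [Field F] (n d : ℕ) : Set (Set (Fin n → F)) :=
  {b | ∃ (v : Fin n → F) (U : Submodule F (Fin n → F)), finrank F U = d ∧ b = {x | x - v ∈ U}}

lemma pgGeo_D (F : Type) [Field F] [Finite F] (n d : ℕ) (hd : 1 ≤ d) :
    (pgGeo F (n + 1) (d + 1) (by omega)).D = pgFlats F n d := by
  have key : ∀ H : Submodule F (Fin (n + 1) → F),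
      blk (pgGeo F (n + 1) (d + 1) (by omega)).φ H = {x | x.submodule ≤ H} := by
    intro H
    ext x
    change x.rep ∈ H ↔ x.submodule ≤ H
    rw [Projectivization.submodule_eq, Submodule.span_singleton_le_iff_mem]
  ext b
  constructor
  · rintro ⟨H, hH, -, rfl⟩
    exact ⟨H, hH, key H⟩
  · rintro ⟨H, hH, rfl⟩
    refine ⟨H, hH, ?_, (key H).symm⟩
    have hne : H ≠ ⊥ := by
      rintro rfl
      rw [finrank_bot] at hH
      omega
    obtain ⟨v, hv, hv0⟩ := Submodule.exists_mem_ne_zero_of_ne_bot hne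
    exact ⟨Projectivization.mk F v hv0, (pg_mem hv0 H).2 hv⟩

lemma flat_eq {F : Type} [Field F] {n d : ℕ} (b : Set (Fin n → F)) :
    (∃ H : Submodule F (F × (Fin n → F)), finrank F H = d + 1 ∧ (∃ y, av y ∈ H) ∧ b = blk av H) ↔
      b ∈ agFlats F n d := by
  constructor
  · rintro ⟨H, hH, ⟨y, hy⟩, rfl⟩
    refine ⟨y, H.comap (LinearMap.inr F F (Fin n → F)), ?_, ?_⟩
    · have h1 : (H.comap (LinearMap.inr F F (Fin n → F))).map (LinearMap.inr F F (Fin n → F)) ⊔
          span F {av y} = H := by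
        apply le_antisymm
        · refine sup_le (Submodule.map_comap_le _ _) ?_
          rw [Submodule.span_singleton_le_iff_mem]; exact hy
        · rintro ⟨c, w⟩ hv
          rw [Submodule.mem_sup]
          refine ⟨(0, w - c • y), ⟨w - c • y, ?_, by simp⟩, c • av y,
            Submodule.smul_mem _ _ (Submodule.mem_span_singleton_self _), by simp [av]⟩
          have := H.sub_mem hv (H.smul_mem c hy)
          have e : ((c, w) : F × (Fin n → F)) - c • av y = ((0 : F), w - c • y) := by simp [av]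
          rw [e] at this
          exact this
      have h2 : av y ∉ (H.comap (LinearMap.inr F F (Fin n → F))).map
          (LinearMap.inr F F (Fin n → F)) := by
        rintro ⟨w, -, hw⟩
        exact zero_ne_one (congrArg Prod.fst hw : (0 : F) = 1)
      have h3 := finrank_sup_single h2
      rw [h1, hH] at h3
      have h4 := LinearEquiv.finrank_eq (Submodule.equivMapOfInjective
        (LinearMap.inr F F (Fin n → F)) LinearMap.inr_injective
        (H.comap (LinearMap.inr F F (Fin n → F))))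
      omega
    · ext x
      change av x ∈ H ↔ ((0 : F), x - y) ∈ H
      constructor
      · intro hx; exact av_diff hx hy
      · intro hx
        have := av_add hy hx
        rwa [add_sub_cancel] at this
  · rintro ⟨v, U, hU, rfl⟩
    refine ⟨U.map (LinearMap.inr F F (Fin n → F)) ⊔ span F {av v}, ?_, ⟨v, ?_⟩, ?_⟩
    · have h2 : av v ∉ U.map (LinearMap.inr F F (Fin n → F)) := by
        rintro ⟨w, -, hw⟩
        exact zero_ne_one (congrArg Prod.fst hw : (0 : F) = 1)
      rw [finrank_sup_single h2, ← hU]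
      congr 1
      exact (LinearEquiv.finrank_eq (Submodule.equivMapOfInjective
        (LinearMap.inr F F (Fin n → F)) LinearMap.inr_injective U)).symm
    · exact (le_sup_right : span F {(av v : F × (Fin n → F))} ≤ _)
        (Submodule.mem_span_singleton_self _)
    · ext x
      change x - v ∈ U ↔ av x ∈ U.map (LinearMap.inr F F (Fin n → F)) ⊔ span F {av v}
      constructor
      · intro hx
        rw [Submodule.mem_sup]
        exact ⟨(0, x - v), ⟨x - v, hx, by simp⟩, av v, Submodule.mem_span_singleton_self _,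
          by simp [av]⟩
      · intro hx
        obtain ⟨_, ⟨w, hw, rfl⟩, _, hz, hwz⟩ := Submodule.mem_sup.1 hx
        obtain ⟨c, rfl⟩ := Submodule.mem_span_singleton.1 hz
        have h1 : c = 1 := by
          have := congrArg Prod.fst hwz
          simpa [av] using this
        have h2 : w + c • v = x := by
          have := congrArg Prod.snd hwz
          simpa [av] using this
        rw [← h2, h1, one_smul, add_sub_cancel_right]
        exact hw

end Pool.Agent.Y385.GD
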