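import Pool.Agent.Y385.GD.Lin

namespace Pool.Agent.Y385.GD

open Module Submodule

/-- The points whose vectors lie in a subspace. -/
def blk {F V Q : Type} [Field F] [AddCommGroup V] [Module F V] (φ : Q → V) (H : Submodule F V) :
    Set Q := {y | φ y ∈ H}

/-- Data of a geometry: points given by vectors, with the properties needed for the trades. -/
structure Geo (F V Q : Type) [Field F] [AddCommGroup V] [Module F V] (n t r : ℕ) where
  c : V
  j : (Fin n → F) →ₗ[F] V
  j_inj : Function.Injective j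
  φ : Q → V
  φ_mem : ∀ y, ∃ v, φ y = c + j v
  φ_surj : ∀ v, c + j v ≠ 0 → ∃ y, span F {φ y} = span F {c + j v}
  φ_inj : ∀ x y, φ x ∈ span F {φ y} → x = y
  star : ∀ v w, ∀ A : Set Q, A.ncard + 1 = t → c + j w ∈ span F (insert (j v) (φ '' A)) →
    ∃ y ∈ A, c + j w ∈ span F {j v, φ y}
  adm : ∀ (H : Submodule F V) (y : Q), φ y ∈ H → span F (φ '' blk φ H) = H
  reg : ∀ H : Submodule F V, finrank F H = r → ∀ x, φ x ∈ H →
    φ x ∈ span F (φ '' (blk φ H \ {x}))
  θ : ℕ → ℕ
  card : ∀ (H : Submodule F V) (y : Q), φ y ∈ H → (blk φ H).ncard = θ (finrank F H)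
  θ_lt : ∀ d, 1 ≤ d → θ d < θ (d + 1)
  transfer : ∀ (U : Set Q) (W : Submodule F V) (z : Q), z ∈ U → φ z ∉ W →
    (∀ A ⊆ U, A.ncard = t → (∃ u ∈ A, φ u ∉ W) → ∀ y, φ y ∈ span F (φ '' A) → y ∈ U) →
    ∀ y, φ y ∈ span F (φ '' U) → y ∈ U
  ht : 1 ≤ t
  htr : t ≤ r

namespace Geo

variable {F V Q : Type} [Field F] [AddCommGroup V] [Module F V] [FiniteDimensional F V]
  [Finite Q] {n t r : ℕ} (G : Geo F V Q n t r)

/-- The blocks of the geometry. -/
def D : Set (Set Q) := {b | ∃ H : Submodule F V, finrank F H = r ∧ (∃ y, G.φ y ∈ H) ∧ b = blk G.φ H}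

omit [FiniteDimensional F V] [Finite Q] in
lemma blk_inj {H K : Submodule F V} (hH : ∃ y, G.φ y ∈ H) (hK : ∃ y, G.φ y ∈ K)
    (h : blk G.φ H = blk G.φ K) : H = K := by
  obtain ⟨y, hy⟩ := hH
  obtain ⟨z, hz⟩ := hK
  rw [← G.adm H y hy, ← G.adm K z hz, h]

omit [FiniteDimensional F V] [Finite Q] in
lemma exists_pt_of_mem {H : Submodule F V} {v : Fin n → F} (h0 : G.c + G.j v ≠ 0)
    (h : G.c + G.j v ∈ H) : ∃ y, G.φ y ∈ H ∧ span F {G.φ y} = span F {G.c + G.j v} := by
  obtain ⟨y, hy⟩ := G.φ_surj v h0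
  refine ⟨y, ?_, hy⟩
  have : G.φ y ∈ span F {G.c + G.j v} := by
    rw [← hy]; exact Submodule.mem_span_singleton_self _
  exact (Submodule.span_singleton_le_iff_mem _ _).2 h this

omit [FiniteDimensional F V] [Finite Q] in
/-- The span of independent vectors of the right shape gives a block. -/
lemma span_mem_D (hr : 1 ≤ r) {x : Fin r → V} (hx : ∀ i, ∃ v, x i = G.c + G.j v)
    (hli : LinearIndependent F x) :
    finrank F ↥(span F (Set.range x)) = r ∧ (∃ y, G.φ y ∈ span F (Set.range x)) := by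
  refine ⟨finrank_span_family hli, ?_⟩
  obtain ⟨v, hv⟩ := hx ⟨0, hr⟩
  obtain ⟨y, hy, -⟩ := G.exists_pt_of_mem (H := span F (Set.range x)) (v := v)
    (by rw [← hv]; exact hli.ne_zero _) (by rw [← hv]; exact Submodule.subset_span ⟨_, rfl⟩)
  exact ⟨y, hy⟩

omit [FiniteDimensional F V] [Finite Q] in
lemma span_diff (H : Submodule F V) (hr : finrank F H = r) (x : Q) (hx : G.φ x ∈ H) :
    span F (G.φ '' (blk G.φ H \ {x})) = H := by
  apply le_antisymm
  · rw [Submodule.span_le]
    rintro _ ⟨y, hy, rfl⟩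
    exact hy.1
  · conv_lhs => rw [← G.adm H x hx]
    rw [Submodule.span_le]
    rintro _ ⟨y, hy, rfl⟩
    by_cases hyx : y = x
    · rw [hyx]
      exact G.reg H hr x hx
    · exact Submodule.subset_span ⟨y, ⟨hy, hyx⟩, rfl⟩

omit [FiniteDimensional F V] [Finite Q] in
lemma shape_sh {x : Fin r → V} (hx : ∀ i, ∃ v, x i = G.c + G.j v) (vp : Fin n → F)
    (s : Fin r → F) : ∀ i, ∃ v, sh x (G.j vp) s i = G.c + G.j v := by
  intro i
  obtain ⟨v, hv⟩ := hx i
  refine ⟨v + s i • vp, ?_⟩
  simp only [sh, hv, map_add, map_smul]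
  abel

omit [FiniteDimensional F V] [Finite Q] in
open Classical in
/-- Symmetry of the coverage numbers of the subspaces complementary to a vector. -/
lemma symm_count (W : Submodule F V) (vp : Fin n → F) (hpW : G.j vp ∈ W) (w : Fin n → F)
    (X X' : Q) (hX : span F {G.φ X} = span F {G.c + G.j w})
    (hX' : span F {G.φ X'} = span F {G.c + G.j w + G.j vp})
    (A : Set Q) (hXA : X ∉ A) (hX'A : X' ∉ A) (hA : A.ncard + 1 = t) :
    {H : Submodule F V | (H ≤ W ∧ finrank F H = r ∧ G.j vp ∉ H) ∧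
        G.c + G.j w ∈ H ∧ ∀ y ∈ A, G.φ y ∈ H}.ncard =
      {H : Submodule F V | (H ≤ W ∧ finrank F H = r ∧ G.j vp ∉ H) ∧
        G.c + G.j w + G.j vp ∈ H ∧ ∀ y ∈ A, G.φ y ∈ H}.ncard := by
  set p := G.j vp with hp
  set a := G.c + G.j w with ha
  by_cases hcase : a ∈ span F (insert p (G.φ '' A))
  · obtain ⟨y, hyA, hy⟩ := G.star vp w A hA hcase
    obtain ⟨α, β, hαβ⟩ := Submodule.mem_span_pair.1 hy
    rw [← ha] at hαβ
    have key : ∀ (H : Submodule F V) (γ : F), p ∉ H → G.φ y ∈ H → γ • p + β • G.φ y ∈ H → γ = 0 := by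
      intro H γ hpH hyH hmem
      by_contra hγ
      apply hpH
      have h1 : γ • p ∈ H := by
        have := H.sub_mem hmem (H.smul_mem β hyH)
        rwa [add_sub_cancel_right] at this
      have := H.smul_mem γ⁻¹ h1
      rwa [smul_smul, inv_mul_cancel₀ hγ, one_smul] at this
    have e1 : {H : Submodule F V | (H ≤ W ∧ finrank F H = r ∧ p ∉ H) ∧
        a ∈ H ∧ ∀ y ∈ A, G.φ y ∈ H} = ∅ := by
      rw [Set.eq_empty_iff_forall_notMem]
      rintro H ⟨⟨-, -, hpH⟩, haH, hAH⟩
      have hα := key H α hpH (hAH y hyA) (by rw [hαβ]; exact haH)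
      rw [hα, zero_smul, zero_add] at hαβ
      apply hXA
      have : X = y := by
        apply G.φ_inj
        have h2 : G.φ X ∈ span F {a} := by rw [← hX]; exact Submodule.mem_span_singleton_self _
        obtain ⟨γ, hγ⟩ := Submodule.mem_span_singleton.1 h2
        rw [← hγ, ← hαβ, smul_smul]
        exact Submodule.smul_mem _ _ (Submodule.mem_span_singleton_self _)
      rw [this]; exact hyA
    have e2 : {H : Submodule F V | (H ≤ W ∧ finrank F H = r ∧ p ∉ H) ∧
        a + p ∈ H ∧ ∀ y ∈ A, G.φ y ∈ H} = ∅ := by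
      rw [Set.eq_empty_iff_forall_notMem]
      rintro H ⟨⟨-, -, hpH⟩, haH, hAH⟩
      have hαβ' : (α + 1) • p + β • G.φ y = a + p := by
        rw [← hαβ, add_smul, one_smul]; abel
      have hα := key H (α + 1) hpH (hAH y hyA) (by rw [hαβ']; exact haH)
      rw [hα, zero_smul, zero_add] at hαβ'
      apply hX'A
      have : X' = y := by
        apply G.φ_inj
        have h2 : G.φ X' ∈ span F {a + p} := by rw [← hX']; exact Submodule.mem_span_singleton_self _
        obtain ⟨γ, hγ⟩ := Submodule.mem_span_singleton.1 h2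
        rw [← hγ, ← hαβ', smul_smul]
        exact Submodule.smul_mem _ _ (Submodule.mem_span_singleton_self _)
      rw [this]; exact hyA
    rw [e1, e2]
  · obtain ⟨f, hf1, hf2⟩ := Submodule.exists_le_ker_of_notMem hcase
    have hfp : f p = 0 := LinearMap.mem_ker.1 (hf2 (Submodule.subset_span (Set.mem_insert _ _)))
    have hfA : ∀ y ∈ A, f (G.φ y) = 0 := fun y hy =>
      LinearMap.mem_ker.1 (hf2 (Submodule.subset_span (Set.mem_insert_of_mem _ ⟨y, hy, rfl⟩)))
    let g : V →ₗ[F] F := (f a)⁻¹ • f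
    have hga : g a = 1 := by simp [g, inv_mul_cancel₀ hf1]
    have hgp : g p = 0 := by simp [g, hfp]
    have hgA : ∀ y ∈ A, g (G.φ y) = 0 := fun y hy => by simp [g, hfA y hy]
    let τ : V ≃ₗ[F] V :=
      { toFun := fun v => v + g v • p
        invFun := fun v => v - g v • p
        map_add' := by intro u v; simp only [map_add, add_smul]; abel
        map_smul' := by intro c v; simp [smul_smul]
        left_inv := by intro v; simp [map_add, map_smul, hgp]
        right_inv := by intro v; simp [map_sub, map_smul, hgp] }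
    have hτ : ∀ v, τ v = v + g v • p := fun v => rfl
    have hτs : ∀ v, τ.symm v = v - g v • p := fun v => rfl
    refine Set.ncard_congr (fun H _ => H.map (τ : V →ₗ[F] V)) ?_ ?_ ?_
    · rintro H ⟨⟨hHW, hHr, hpH⟩, haH, hAH⟩
      refine ⟨⟨?_, ?_, ?_⟩, ?_, ?_⟩
      · rintro _ ⟨v, hv, rfl⟩
        exact W.add_mem (hHW hv) (W.smul_mem _ hpW)
      · rw [LinearEquiv.finrank_map_eq]; exact hHr
      · rintro ⟨v, hv, hvp⟩
        apply hpH
        have : v = p := by
          have h1 : τ.symm (τ v) = τ.symm p := congrArg τ.symm hvp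
          rw [LinearEquiv.symm_apply_apply, hτs, hgp, zero_smul, sub_zero] at h1
          exact h1
        rw [← this]; exact hv
      · exact ⟨a, haH, by change τ a = a + p; rw [hτ, hga, one_smul]⟩
      · intro y hy
        exact ⟨G.φ y, hAH y hy, by change τ (G.φ y) = G.φ y; rw [hτ, hgA y hy, zero_smul, add_zero]⟩
    · intro H K _ _ h
      exact Submodule.map_injective_of_injective τ.injective h
    · rintro K ⟨⟨hKW, hKr, hpK⟩, haK, hAK⟩
      refine ⟨K.map (τ.symm : V →ₗ[F] V), ⟨⟨?_, ?_, ?_⟩, ?_, ?_⟩, ?_⟩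
      · rintro _ ⟨v, hv, rfl⟩
        exact W.sub_mem (hKW hv) (W.smul_mem _ hpW)
      · rw [LinearEquiv.finrank_map_eq]; exact hKr
      · rintro ⟨v, hv, hvp⟩
        apply hpK
        have : v = p := by
          have h1 : τ (τ.symm v) = τ p := congrArg τ hvp
          rw [LinearEquiv.apply_symm_apply, hτ, hgp, zero_smul, add_zero] at h1
          exact h1
        rw [← this]; exact hv
      · refine ⟨a + p, haK, ?_⟩
        change τ.symm (a + p) = a
        rw [hτs, map_add, hga, hgp, add_zero, one_smul, add_sub_cancel_right]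
      · intro y hy
        exact ⟨G.φ y, hAK y hy, by
          change τ.symm (G.φ y) = G.φ y; rw [hτs, hgA y hy, zero_smul, sub_zero]⟩
      · ext v
        simp only [Submodule.mem_map]
        constructor
        · rintro ⟨_, ⟨u, hu, rfl⟩, rfl⟩
          change τ (τ.symm u) ∈ K
          rw [LinearEquiv.apply_symm_apply]; exact hu
        · intro hv
          exact ⟨τ.symm v, ⟨v, hv, rfl⟩, τ.apply_symm_apply v⟩

end Geo

end Pool.Agent.Y385.GD
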