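import Pool.Agent.Y385.GD.Geo

namespace Pool.Agent.Y385.GD

open Module Submodule

lemma mem_iff_of_span_eq {F V : Type} [Field F] [AddCommGroup V] [Module F V] {u v : V}
    (h : span F {u} = span F {v}) (H : Submodule F V) : u ∈ H ↔ v ∈ H := by
  rw [← Submodule.span_singleton_le_iff_mem, h, Submodule.span_singleton_le_iff_mem]

namespace Geo

variable {F V Q : Type} [Field F] [AddCommGroup V] [Module F V] [FiniteDimensional F V]
  [Finite Q] {n t r : ℕ} (G : Geo F V Q n t r)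

open Classical in
omit [Finite Q] in
lemma swap_notMem_D {H : Submodule F V} (hr : finrank F H = r) {Y Y' : Q} (hY : G.φ Y ∈ H)
    (hY' : G.φ Y' ∉ H) : (Equiv.swap Y Y') '' (blk G.φ H) ∉ G.D := by
  rintro ⟨K, hK, -, hKe⟩
  have h1 : H ≤ K := by
    rw [← G.span_diff H hr Y hY, Submodule.span_le]
    rintro _ ⟨y, ⟨hy, hyY⟩, rfl⟩
    have : y ∈ blk G.φ K := by
      rw [← hKe]
      refine ⟨y, hy, Equiv.swap_apply_of_ne_of_ne hyY ?_⟩
      rintro rfl
      exact hY' hy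
    exact this
  have h2 : H = K := Submodule.eq_of_le_of_finrank_eq h1 (by rw [hr, hK])
  have h3 : Y ∈ blk G.φ K := by rw [← h2]; exact hY
  rw [← hKe] at h3
  obtain ⟨z, hz, hzY⟩ := h3
  have : z = Y' := by
    have := congrArg (Equiv.swap Y Y') hzY
    rwa [Equiv.swap_apply_self, Equiv.swap_apply_left] at this
  rw [this] at hz
  exact hY' hz

open Classical in
/-- The trade. -/
theorem exists_trade (x : Fin r → V) (hx : ∀ i, ∃ v, x i = G.c + G.j v) (vp : Fin n → F)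
    (hp : G.j vp ≠ 0) (T : Set (Set Q)) (hT : T ⊆ G.D)
    (hline : ∀ s : Fin r → F, LinearIndependent F (sh x (G.j vp) s) ∧
      blk G.φ (span F (Set.range (sh x (G.j vp) s))) ∈ T) :
    ∃ (W : Submodule F V) (B' : Set Q) (D' : Set (Set Q)), finrank F W = r + 1 ∧
      (∀ k lam, IsDesign t k lam G.D → IsDesign t k lam D') ∧ G.D \ T ⊆ D' ∧ B' ∈ D' ∧
      span F (G.φ '' B') = W ∧ (∀ b ∈ G.D, (∃ z ∈ b, G.φ z ∉ W) → b ∈ D') ∧
      (∀ b ∈ D', (∃ z ∈ b, G.φ z ∉ W) → b ∈ G.D) := by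
  have hr1 : 1 ≤ r := G.ht.trans G.htr
  set p := G.j vp with hpdef
  have hli : ∀ s : Fin r → F, LinearIndependent F (sh x p s) := fun s => (hline s).1
  have hx0 : LinearIndependent F x := by have := hli 0; rwa [sh_zero] at this
  have hpn : p ∉ span F (Set.range x) := notMem_span_of_line hp hli
  have hpns : ∀ s : Fin r → F, p ∉ span F (Set.range (sh x p s)) := fun s =>
    notMem_span_of_line hp (fun s' => by rw [sh_sh]; exact hli _)
  set H0 := span F (Set.range x) with hH0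
  set W := H0 ⊔ span F {p} with hW
  have hpW : p ∈ W := (le_sup_right : span F {p} ≤ W) (Submodule.mem_span_singleton_self p)
  set i0 : Fin r := ⟨0, hr1⟩
  obtain ⟨w, hw⟩ := hx i0
  have ha0 : G.c + G.j w ≠ 0 := by rw [← hw]; exact hx0.ne_zero i0
  have ha1 : G.c + G.j (w + vp) ≠ 0 := by
    have h1 := (hli (Pi.single i0 1)).ne_zero i0
    simp only [sh, Pi.single_eq_same, one_smul, hw] at h1
    rw [map_add, ← add_assoc]
    exact h1
  obtain ⟨X, hX⟩ := G.φ_surj w ha0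
  obtain ⟨X', hX'⟩ := G.φ_surj (w + vp) ha1
  rw [map_add, ← add_assoc, ← hpdef] at hX'
  set a := G.c + G.j w with ha
  have haH0 : a ∈ H0 := by rw [← hw]; exact Submodule.subset_span ⟨i0, rfl⟩
  have hXi : ∀ H : Submodule F V, G.φ X ∈ H ↔ a ∈ H := mem_iff_of_span_eq hX
  have hXi' : ∀ H : Submodule F V, G.φ X' ∈ H ↔ a + p ∈ H := mem_iff_of_span_eq hX'
  have hnot2 : ∀ H : Submodule F V, p ∉ H → G.φ X ∈ H → G.φ X' ∉ H := by
    intro H hpH h1 h2
    rw [hXi] at h1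
    rw [hXi'] at h2
    apply hpH
    have := H.sub_mem h2 h1
    rwa [add_sub_cancel_left] at this
  let GG : Set (Submodule F V) := {H | H ≤ W ∧ finrank F H = r ∧ p ∉ H}
  have hGGs : ∀ H ∈ GG, ∃ s : Fin r → F, H = span F (Set.range (sh x p s)) := by
    rintro H ⟨h1, h2, h3⟩
    exact exists_sh_of_compl hx0 hpn h1 h2 h3 hli
  have hGGy : ∀ H ∈ GG, ∃ y, G.φ y ∈ H := by
    intro H hH
    obtain ⟨s, rfl⟩ := hGGs H hH
    exact (G.span_mem_D hr1 (G.shape_sh hx vp s) (hli s)).2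
  let T1 : Set (Set Q) := (fun H => blk G.φ H) '' GG
  have hT1T : T1 ⊆ T := by
    rintro _ ⟨H, hH, rfl⟩
    obtain ⟨s, rfl⟩ := hGGs H hH
    exact (hline s).2
  have hT1D : T1 ⊆ G.D := hT1T.trans hT
  have hinj : Set.InjOn (fun H => blk G.φ H) GG := by
    intro H hH K hK h
    exact G.blk_inj (hGGy H hH) (hGGy K hK) h
  let σ : Equiv.Perm Q := Equiv.swap X X'
  have hσX : σ X = X' := Equiv.swap_apply_left _ _
  have hσX' : σ X' = X := Equiv.swap_apply_right _ _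
  have hσo : ∀ y, y ≠ X → y ≠ X' → σ y = y := fun y h1 h2 => Equiv.swap_apply_of_ne_of_ne h1 h2
  have h1 : ∀ b ∈ T1, σ '' b ∈ G.D → σ '' b ∈ T1 := by
    rintro _ ⟨H, hH, rfl⟩ hD
    by_cases hXH : G.φ X ∈ H
    · exact absurd hD (G.swap_notMem_D hH.2.1 hXH (hnot2 H hH.2.2 hXH))
    · by_cases hXH' : G.φ X' ∈ H
      · have := G.swap_notMem_D hH.2.1 hXH' hXH
        rw [Equiv.swap_comm] at this
        exact absurd hD this
      · have he : σ '' (blk G.φ H) = blk G.φ H := by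
          have : Set.EqOn σ id (blk G.φ H) := by
            intro y hy
            apply hσo
            · rintro rfl; exact hXH hy
            · rintro rfl; exact hXH' hy
          rw [this.image_eq, Set.image_id]
        change σ '' (blk G.φ H) ∈ T1
        rw [he]
        exact ⟨H, hH, rfl⟩
  have himg : ∀ (A : Set Q) (Y : Q), {b ∈ T1 | insert Y A ⊆ b} =
      (fun H => blk G.φ H) '' {H | H ∈ GG ∧ G.φ Y ∈ H ∧ ∀ y ∈ A, G.φ y ∈ H} := by
    intro A Y
    ext b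
    constructor
    · rintro ⟨⟨H, hH, rfl⟩, hA⟩
      exact ⟨H, ⟨hH, hA (Set.mem_insert _ _), fun y hy => hA (Set.mem_insert_of_mem _ hy)⟩, rfl⟩
    · rintro ⟨H, ⟨hH, hY, hA⟩, rfl⟩
      refine ⟨⟨H, hH, rfl⟩, ?_⟩
      rintro y (rfl | hy)
      · exact hY
      · exact hA y hy
  have h2 : ∀ A : Set Q, A.ncard = t → {b ∈ T1 | A ⊆ b}.ncard = {b ∈ T1 | A ⊆ σ '' b}.ncard := by
    apply swap_coverage X X'
    intro A hXA hX'A hA
    rw [himg A X, himg A X', Set.ncard_image_of_injOn (hinj.mono fun H hH => hH.1),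
      Set.ncard_image_of_injOn (hinj.mono fun H hH => hH.1)]
    have := G.symm_count W vp hpW w X X' hX hX' A hXA hX'A hA
    simp only [hXi, hXi']
    exact this
  have hblkW : ∀ H ∈ GG, ∀ z ∈ blk G.φ H, G.φ z ∈ W := fun H hH z hz => hH.1 hz
  have hXW : G.φ X ∈ W := (hXi W).2 ((le_sup_left : H0 ≤ W) haH0)
  have hX'W : G.φ X' ∈ W := (hXi' W).2 (W.add_mem ((le_sup_left : H0 ≤ W) haH0) hpW)
  have hσW : ∀ H ∈ GG, ∀ z ∈ σ '' (blk G.φ H), G.φ z ∈ W := by
    rintro H hH _ ⟨z, hz, rfl⟩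
    by_cases hz1 : z = X
    · rw [hz1, hσX]; exact hX'W
    · by_cases hz2 : z = X'
      · rw [hz2, hσX']; exact hXW
      · rw [hσo z hz1 hz2]; exact hblkW H hH z hz
  have hH0G : H0 ∈ GG := ⟨le_sup_left, finrank_span_family hx0, hpn⟩
  have hXH0 : G.φ X ∈ H0 := (hXi H0).2 haH0
  have hX'H0 : G.φ X' ∉ H0 := hnot2 H0 hpn hXH0
  refine ⟨W, σ '' (blk G.φ H0), (G.D \ T1) ∪ (fun b => σ '' b) '' T1, ?_, ?_, ?_, ?_, ?_, ?_, ?_⟩
  · rw [hW, finrank_sup_single hpn, finrank_span_family hx0]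
  · intro k lam hD
    exact trade_isDesign hD hT1D σ h1 h2
  · rintro b ⟨hb, hbT⟩
    exact Or.inl ⟨hb, fun h => hbT (hT1T h)⟩
  · exact Or.inr ⟨blk G.φ H0, ⟨H0, hH0G, rfl⟩, rfl⟩
  · apply le_antisymm
    · rw [Submodule.span_le]
      rintro _ ⟨y, hy, rfl⟩
      exact hσW H0 hH0G y hy
    · have hle : H0 ≤ span F (G.φ '' (σ '' (blk G.φ H0))) := by
        conv_lhs => rw [← G.span_diff H0 hH0G.2.1 X hXH0]
        apply Submodule.span_mono
        rintro _ ⟨y, ⟨hy, hyX⟩, rfl⟩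
        refine ⟨y, ⟨y, hy, hσo y hyX ?_⟩, rfl⟩
        rintro rfl
        exact hX'H0 hy
      have hX'm : G.φ X' ∈ span F (G.φ '' (σ '' (blk G.φ H0))) :=
        Submodule.subset_span ⟨X', ⟨X, hXH0, hσX⟩, rfl⟩
      refine sup_le hle ?_
      rw [Submodule.span_singleton_le_iff_mem]
      rw [hXi'] at hX'm
      have := Submodule.sub_mem _ hX'm (hle haH0)
      rwa [add_sub_cancel_left] at this
  · rintro b hb ⟨z, hz, hzW⟩
    refine Or.inl ⟨hb, ?_⟩
    rintro ⟨H, hH, rfl⟩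
    exact hzW (hblkW H hH z hz)
  · rintro b (⟨hb, -⟩ | ⟨_, ⟨H, hH, rfl⟩, rfl⟩) ⟨z, hz, hzW⟩
    · exact hb
    · exact absurd (hσW H hH z hz) hzW

end Geo

end Pool.Agent.Y385.GD
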