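import Pool.Agent.Y385.GD.Geo2

namespace Pool.Agent.Y385.GD

open Module Submodule

/-- The points on all blocks containing `A`. -/
def cl {Q : Type} (B : Set (Set Q)) (A : Set Q) : Set Q := {y | ∀ b ∈ B, A ⊆ b → y ∈ b}

/-- Closure under generating from `t`-subsets. -/
def ClosedIn {Q : Type} (t : ℕ) (B : Set (Set Q)) (U : Set Q) : Prop :=
  ∀ A ⊆ U, A.ncard = t → cl B A ⊆ U

/-- Every block and every point lie in a closed set with at most `M` points. -/
def PropM {Q : Type} (t : ℕ) (B : Set (Set Q)) (M : ℕ) : Prop :=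
  ∀ b ∈ B, ∀ z : Q, ∃ U, b ⊆ U ∧ z ∈ U ∧ ClosedIn t B U ∧ U.ncard ≤ M

lemma propM_iso {Q : Type} (π : Equiv.Perm Q) {t M : ℕ} {D : Set (Set Q)} (h : PropM t D M) :
    PropM t ((fun b => π '' b) '' D) M := by
  rintro _ ⟨b, hb, rfl⟩ z
  obtain ⟨U, hbU, hzU, hcl, hM⟩ := h b hb (π.symm z)
  refine ⟨π '' U, Set.image_mono hbU, ⟨π.symm z, hzU, π.apply_symm_apply z⟩, ?_, ?_⟩
  · intro A hA hAt y hy
    have h1 : π.symm '' A ⊆ U := by
      rintro _ ⟨a, ha, rfl⟩
      obtain ⟨u, hu, hua⟩ := hA ha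
      rw [← hua, Equiv.symm_apply_apply]
      exact hu
    have h2 : (π.symm '' A).ncard = t := by
      rw [Set.ncard_image_of_injective _ π.symm.injective, hAt]
    refine ⟨π.symm y, hcl _ h1 h2 ?_, π.apply_symm_apply y⟩
    intro b' hb' hAb'
    have h3 : A ⊆ π '' b' := by
      intro a ha
      exact ⟨π.symm a, hAb' ⟨a, ha, rfl⟩, π.apply_symm_apply a⟩
    obtain ⟨w, hw, hwy⟩ := hy (π '' b') ⟨b', hb', rfl⟩ h3
    rw [← hwy, Equiv.symm_apply_apply]
    exact hw
  · rw [Set.ncard_image_of_injective _ π.injective]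
    exact hM

lemma finrank_span_image_le {F V Q : Type} [Field F] [AddCommGroup V] [Module F V]
    [Finite Q] (φ : Q → V) (A : Set Q) : finrank F ↥(span F (φ '' A)) ≤ A.ncard := by
  classical
  have hfin : (φ '' A).Finite := (Set.toFinite A).image φ
  have : Fintype ↑(φ '' A) := hfin.fintype
  refine (finrank_span_le_card (R := F) (φ '' A)).trans ?_
  rw [← Set.ncard_eq_toFinset_card']
  exact Set.ncard_image_le (Set.toFinite A)

namespace Geo

variable {F V Q : Type} [Field F] [AddCommGroup V] [Module F V] [FiniteDimensional F V]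
  [Finite Q] {n t r : ℕ} (G : Geo F V Q n t r)

theorem propM_D (hdim : r < finrank F V) : PropM t G.D (G.θ (r + 1)) := by
  have hr1 : 1 ≤ r := G.ht.trans G.htr
  rintro _ ⟨H, hH, ⟨y0, hy0⟩, rfl⟩ z
  set P := H ⊔ span F {G.φ z} with hP
  have hHP : H ≤ P := le_sup_left
  refine ⟨blk G.φ P, fun y hy => hHP hy, ?_, ?_, ?_⟩
  · exact (le_sup_right : span F {G.φ z} ≤ P) (Submodule.mem_span_singleton_self _)
  · intro A hA hAt y hy
    by_contra hyP
    have hAP : span F (G.φ '' A) ≤ P := by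
      rw [Submodule.span_le]
      rintro _ ⟨a, ha, rfl⟩
      exact hA ha
    have h1 : G.φ y ∉ span F (G.φ '' A) := fun h => hyP (hAP h)
    have h2 : finrank F ↥(span F (G.φ '' A)) ≤ r := by
      refine (finrank_span_image_le G.φ A).trans ?_
      rw [hAt]; exact G.htr
    obtain ⟨K, hK1, hK2, hK3⟩ := exists_avoid h1 h2 hdim
    have hAne : A.Nonempty := by
      rw [← Set.ncard_pos (Set.toFinite A), hAt]
      exact G.ht
    obtain ⟨a, ha⟩ := hAne
    have hAK : A ⊆ blk G.φ K := fun a' ha' => hK1 (Submodule.subset_span ⟨a', ha', rfl⟩)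
    exact hK2 (hy (blk G.φ K) ⟨K, hK3, ⟨a, hAK ha⟩, rfl⟩ hAK)
  · rw [G.card P y0 (hHP hy0)]
    have h1 : finrank F P ≤ r + 1 := by rw [← hH]; exact finrank_sup_single_le H _
    have h2 : r ≤ finrank F P := by rw [← hH]; exact Submodule.finrank_mono hHP
    rcases Nat.lt_or_ge (finrank F P) (r + 1) with h3 | h3
    · have : finrank F P = r := by omega
      rw [this]
      exact (G.θ_lt r hr1).le
    · have : finrank F P = r + 1 := by omega
      rw [this]

theorem not_iso (hdim : r + 1 < finrank F V) {W : Submodule F V} {B' : Set Q} {D' : Set (Set Q)}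
    (hW : finrank F W = r + 1) (hB' : B' ∈ D') (hBW : span F (G.φ '' B') = W)
    (hD' : ∀ b ∈ D', (∃ z ∈ b, G.φ z ∉ W) → b ∈ G.D) :
    ¬ ∃ π : Equiv.Perm Q, D' = (fun b => π '' b) '' G.D := by
  rintro ⟨π, hπ⟩
  have hP : PropM t D' (G.θ (r + 1)) := by
    rw [hπ]
    exact propM_iso π (G.propM_D (by omega))
  have hBne : B'.Nonempty := by
    rw [Set.nonempty_iff_ne_empty]
    rintro rfl
    rw [Set.image_empty, Submodule.span_empty] at hBW
    rw [← hBW, finrank_bot] at hW
    omega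
  obtain ⟨y0, hy0⟩ := hBne
  have hz : ∃ z, G.φ z ∉ W := by
    by_contra hcon
    push Not at hcon
    have h1 := G.adm ⊤ y0 Submodule.mem_top
    have h2 : span F (G.φ '' blk G.φ (⊤ : Submodule F V)) ≤ W := by
      rw [Submodule.span_le]
      rintro _ ⟨y, -, rfl⟩
      exact hcon y
    rw [h1, top_le_iff] at h2
    rw [h2, finrank_top] at hW
    omega
  obtain ⟨z, hz⟩ := hz
  obtain ⟨U, hBU, hzU, hcl, hM⟩ := hP B' hB' z
  have htr := G.transfer U W z hzU hz (by
    rintro A hAU hAt ⟨u, hu, huW⟩ y hy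
    apply hcl A hAU hAt
    intro b hb hAb
    obtain ⟨H, -, -, rfl⟩ := hD' b hb ⟨u, hAb hu, huW⟩
    have : span F (G.φ '' A) ≤ H := by
      rw [Submodule.span_le]
      rintro _ ⟨a, ha, rfl⟩
      exact hAb ha
    exact this hy)
  set W2 := W ⊔ span F {G.φ z} with hW2
  have h1 : W2 ≤ span F (G.φ '' U) := by
    apply sup_le
    · rw [← hBW]
      exact Submodule.span_mono (Set.image_mono hBU)
    · rw [Submodule.span_singleton_le_iff_mem]
      exact Submodule.subset_span ⟨z, hzU, rfl⟩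
  have h2 : blk G.φ W2 ⊆ U := fun y hy => htr y (h1 hy)
  have h3 := Set.ncard_le_ncard h2 (Set.toFinite U)
  have h4 : G.φ z ∈ W2 := (le_sup_right : span F {G.φ z} ≤ W2) (Submodule.mem_span_singleton_self _)
  rw [G.card W2 z h4, hW2, finrank_sup_single hz, hW] at h3
  have := G.θ_lt (r + 1) (by omega)
  omega

end Geo

end Pool.Agent.Y385.GD
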