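import Pool.Agent.Y385.GD.Geo3
import Pool.Agent.Helper868.DHJ

namespace Pool.Agent.Y385.GD

open Module Submodule Pool.Agent.Helper868.DHJ

lemma dens_eq {Y : Type} [Fintype Y] (P : Set Y) :
    dens P = (P.ncard : ℝ) / Fintype.card Y := by
  classical
  unfold dens
  rw [av_eq_sum]
  congr 1
  have h : ∀ x, ind P x = if x ∈ P then 1 else 0 := by
    intro x
    by_cases hx : x ∈ P
    · rw [ind_mem hx, if_pos hx]
    · rw [ind_not_mem hx, if_neg hx]
  simp_rw [h]
  rw [Finset.sum_boole, Set.ncard_eq_toFinset_card']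
  congr 2
  ext x
  simp

/-- `S` is a class defining set of the design `D`: it is a set of blocks of `D`, and every design
with the parameters `t, k, lam` on the same points whose blocks include `S` is isomorphic to `D`. -/
def IsClassDefiningSet {Q : Type} (t k lam : ℕ) (D S : Set (Set Q)) : Prop :=
  S ⊆ D ∧ ∀ B, IsDesign t k lam B → S ⊆ B → ∃ π : Equiv.Perm Q, B = (fun b => π '' b) '' D

namespace Geo

variable {F V Q : Type} [Field F] [Fintype F] [AddCommGroup V] [Module F V]
  [FiniteDimensional F V] [Finite Q] {n t r : ℕ} (G : Geo F V Q n t r)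

/-- The vectors given by a word. -/
def tup (w : Fin n → Fin r → F) : Fin r → V := fun i => G.c + G.j (fun k => w k i)

omit [Fintype F] [FiniteDimensional F V] [Finite Q] in
lemma tup_inj : Function.Injective (tup G) := by
  intro w w' h
  funext k i
  have h1 := congrFun h i
  simp only [tup, add_right_inj] at h1
  have h2 := G.j_inj h1
  exact congrFun h2 k

open Classical in
omit [Finite Q] [Fintype F] in
/-- Every block comes from a word. -/
lemma exists_word {b : Set Q} (hb : b ∈ G.D) :
    ∃ w : Fin n → Fin r → F, LinearIndependent F (tup G w) ∧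
      b = blk G.φ (span F (Set.range (tup G w))) := by
  obtain ⟨H, hH, ⟨y, hy⟩, rfl⟩ := hb
  have hadm := G.adm H y hy
  have hfr : finrank F ↥(span F (G.φ '' blk G.φ H)) = r := by rw [hadm]; exact hH
  obtain ⟨f, hf1, hf2, hf3⟩ := Submodule.exists_fun_fin_finrank_span_eq F (G.φ '' blk G.φ H)
  let f' : Fin r → V := fun i => f (Fin.cast hfr.symm i)
  have h1 : ∀ i, ∃ v, f' i = G.c + G.j v := by
    intro i
    obtain ⟨y, -, hy⟩ := hf1 (Fin.cast hfr.symm i)
    obtain ⟨v, hv⟩ := G.φ_mem y
    exact ⟨v, by rw [← hv, hy]⟩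
  choose v hv using h1
  have htup : tup G (fun k i => v i k) = f' := by
    funext i
    rw [hv i]
    rfl
  have hrange : Set.range f' = Set.range f := by
    ext u
    constructor
    · rintro ⟨i, rfl⟩; exact ⟨_, rfl⟩
    · rintro ⟨i, rfl⟩; exact ⟨Fin.cast hfr i, rfl⟩
  refine ⟨fun k i => v i k, ?_, ?_⟩
  · rw [htup]
    exact hf3.comp _ (Fin.cast_injective hfr.symm)
  · rw [htup, hrange, hf2, hadm]

open Classical in
/-- The number of independent words is at most a constant times the number of blocks. -/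
lemma card_indep_le (hr : 1 ≤ r) :
    (Finset.univ.filter fun w : Fin n → Fin r → F => LinearIndependent F (tup G w)).card ≤
      (Fintype.card F ^ r) ^ r * G.D.ncard := by
  set I := Finset.univ.filter fun w : Fin n → Fin r → F => LinearIndependent F (tup G w) with hI
  let g : (Fin n → Fin r → F) → Set Q := fun w => blk G.φ (span F (Set.range (tup G w)))
  have hIy : ∀ w ∈ I, ∃ y, G.φ y ∈ span F (Set.range (tup G w)) := fun w hw =>
    (G.span_mem_D hr (fun i => ⟨_, rfl⟩) (Finset.mem_filter.1 hw).2).2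
  have h1 : I.card ≤ (Fintype.card F ^ r) ^ r * (I.image g).card := by
    apply Finset.card_le_mul_card_image
    intro b hb
    obtain ⟨w0, hw0, hb0⟩ := Finset.mem_image.1 hb
    set H0 := span F (Set.range (tup G w0)) with hH0
    have : Finite V := Module.finite_of_finite F
    have : Fintype ↥H0 := Fintype.ofFinite _
    have hcard : (Finset.univ : Finset (Fin r → ↥H0)).card = (Fintype.card F ^ r) ^ r := by
      rw [Finset.card_univ, Fintype.card_fun, Fintype.card_fin, Module.card_eq_pow_finrank (K := F),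
        finrank_span_family (Finset.mem_filter.1 hw0).2]
    rw [← hcard]
    have hmem : ∀ w ∈ I.filter (fun w => g w = b), ∀ i, tup G w i ∈ H0 := by
      intro w hw i
      obtain ⟨hwI, hwb⟩ := Finset.mem_filter.1 hw
      have : span F (Set.range (tup G w)) = H0 :=
        G.blk_inj (hIy w hwI) (hIy w0 hw0) (hwb.trans hb0.symm)
      rw [← this]
      exact Submodule.subset_span ⟨i, rfl⟩
    apply Finset.card_le_card_of_injOn
      (fun w i => if h : tup G w i ∈ H0 then (⟨tup G w i, h⟩ : ↥H0) else 0)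
    · intro w _
      exact Finset.mem_coe.2 (Finset.mem_univ _)
    · intro w hw w' hw' h
      apply tup_inj G
      funext i
      have h2 := congrFun h i
      simp only [dif_pos (hmem w hw i), dif_pos (hmem w' hw' i)] at h2
      exact congrArg Subtype.val h2
  refine h1.trans (Nat.mul_le_mul_left _ ?_)
  rw [← Set.ncard_coe_finset]
  apply Set.ncard_le_ncard _ (Set.toFinite _)
  intro b hb
  obtain ⟨w, hw, rfl⟩ := Finset.mem_image.1 (Finset.mem_coe.1 hb)
  exact ⟨_, finrank_span_family (Finset.mem_filter.1 hw).2, hIy w hw, rfl⟩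

open Classical in
omit [FiniteDimensional F V] [Finite Q] in
/-- Few words give dependent vectors. -/
lemma card_dep_le (hr : 1 ≤ r) :
    (Finset.univ.filter fun w : Fin n → Fin r → F => ¬ LinearIndependent F (tup G w)).card *
      Fintype.card F ^ n ≤ Fintype.card F ^ r * (Fintype.card F ^ r) ^ n := by
  let P : Type := {w : Fin n → Fin r → F // ¬ LinearIndependent F (tup G w)}
  have hex : ∀ w : P, ∃ g : Fin r → F, ∑ i, g i • tup G w.1 i = 0 ∧ ∃ i, g i ≠ 0 := fun w =>
    Fintype.not_linearIndependent_iff.1 w.2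
  choose g hg1 hg2 using hex
  let i0 : (Fin r → F) → Fin r := fun g => if h : ∃ i, g i ≠ 0 then h.choose else ⟨0, hr⟩
  have hi0 : ∀ g : Fin r → F, (∃ i, g i ≠ 0) → g (i0 g) ≠ 0 := by
    intro g hg
    simp only [i0, dif_pos hg]
    exact hg.choose_spec
  let Φ : P × (Fin n → F) → (Fin r → F) × (Fin n → Fin r → F) := fun z =>
    (g z.1, fun k => z.1.1 k + Pi.single (i0 (g z.1)) (z.2 k))
  have hkey : ∀ z : P × (Fin n → F), ∑ i, g z.1 i • tup G (Φ z).2 i =
      g z.1 (i0 (g z.1)) • G.j z.2 := by
    intro z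
    have h1 : ∀ i, tup G (Φ z).2 i = tup G z.1.1 i +
        (if i = i0 (g z.1) then G.j z.2 else 0) := by
      intro i
      simp only [tup, Φ]
      have : (fun k => (z.1.1 k + Pi.single (i0 (g z.1)) (z.2 k) : Fin r → F) i) =
          (fun k => z.1.1 k i) + (if i = i0 (g z.1) then z.2 else 0) := by
        funext k
        by_cases hi : i = i0 (g z.1)
        · subst hi
          simp
        · simp [hi]
      rw [this, map_add, add_assoc]
      by_cases hi : i = i0 (g z.1)
      · simp [hi]
      · simp [hi]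
    simp_rw [h1, smul_add, Finset.sum_add_distrib]
    rw [hg1 z.1, zero_add, Finset.sum_eq_single (i0 (g z.1))]
    · simp
    · intro i _ hi
      simp [hi]
    · intro hcon
      exact absurd (Finset.mem_univ _) hcon
  have hΦ : Function.Injective Φ := by
    intro z z' h
    have h1 : g z.1 = g z'.1 := congrArg Prod.fst h
    have h2 : (Φ z).2 = (Φ z').2 := congrArg Prod.snd h
    have h3 : z.2 = z'.2 := by
      have e1 := hkey z
      have e2 := hkey z'
      rw [← h2, ← h1] at e2
      rw [e1] at e2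
      have h4 := hi0 _ (hg2 z.1)
      apply G.j_inj
      have := congrArg (fun v => (g z.1 (i0 (g z.1)))⁻¹ • v) e2
      simpa only [smul_smul, inv_mul_cancel₀ h4, one_smul] using this
    have h4 : z.1.1 = z'.1.1 := by
      funext k
      have := congrFun h2 k
      simp only [Φ, h1, h3] at this
      exact add_right_cancel this
    exact Prod.ext (Subtype.ext h4) h3
  have hc := Fintype.card_le_of_injective Φ hΦ
  simp only [Fintype.card_prod, Fintype.card_fun, Fintype.card_fin] at hc
  have hP : Fintype.card P =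
      (Finset.univ.filter fun w : Fin n → Fin r → F => ¬ LinearIndependent F (tup G w)).card := by
    rw [Fintype.card_subtype]
  rw [hP] at hc
  exact hc

/-- Lower bound for the number of blocks. -/
lemma card_blocks (hr : 1 ≤ r) (hn : r + 1 ≤ n) :
    ((Fintype.card F ^ r : ℕ) ^ n : ℝ) ≤ 2 * (Fintype.card F ^ r : ℕ) ^ r * (G.D.ncard : ℝ) := by
  classical
  have h1 := G.card_indep_le hr
  have h2 := G.card_dep_le hr
  have h3 := Finset.card_filter_add_card_filter_not (s := (Finset.univ : Finset (Fin n → Fin r → F)))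
    (fun w => LinearIndependent F (tup G w))
  rw [Finset.card_univ, Fintype.card_fun, Fintype.card_fun, Fintype.card_fin, Fintype.card_fin] at h3
  set I := (Finset.univ.filter fun w : Fin n → Fin r → F => LinearIndependent F (tup G w)).card
  set J := (Finset.univ.filter fun w : Fin n → Fin r → F => ¬ LinearIndependent F (tup G w)).card
  have hq : 2 ≤ Fintype.card F := Fintype.one_lt_card
  set q := Fintype.card F
  have hqr : 0 < q ^ r := Nat.pow_pos (by omega)
  have h4 : 2 * q ^ r ≤ q ^ n := by
    calc 2 * q ^ r ≤ q * q ^ r := Nat.mul_le_mul_right _ hq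
      _ = q ^ (r + 1) := by ring
      _ ≤ q ^ n := Nat.pow_le_pow_right (by omega) hn
  have h5 : 2 * J ≤ (q ^ r) ^ n := by
    have h6 : J * (2 * q ^ r) ≤ q ^ r * (q ^ r) ^ n :=
      (Nat.mul_le_mul_left _ h4).trans h2
    have h7 : q ^ r * (2 * J) ≤ q ^ r * (q ^ r) ^ n := by
      calc q ^ r * (2 * J) = J * (2 * q ^ r) := by ring
        _ ≤ _ := h6
    exact Nat.le_of_mul_le_mul_left h7 hqr
  have h8 : (q ^ r) ^ n ≤ 2 * I := by omega
  have h9 : (q ^ r) ^ n ≤ 2 * ((q ^ r) ^ r * G.D.ncard) := h8.trans (Nat.mul_le_mul_left _ h1)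
  have h10 : (((q ^ r) ^ n : ℕ) : ℝ) ≤ ((2 * ((q ^ r) ^ r * G.D.ncard) : ℕ) : ℝ) := by
    exact_mod_cast h9
  push_cast at h10 ⊢
  linarith

end Geo

/-- In high dimension the complement of a class defining set is a small proportion of the blocks. -/
theorem complement_small (F : Type) [Field F] [Fintype F] (t r : ℕ) (ε : ℝ) (hε : 0 < ε) :
    ∃ N : ℕ, ∀ n, N ≤ n → ∀ (V Q : Type) [AddCommGroup V] [Module F V] [FiniteDimensional F V]
      [Finite Q] (G : Geo F V Q n t r), r + 1 < finrank F V → ∀ k lam, IsDesign t k lam G.D →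
      ∀ S, IsClassDefiningSet t k lam G.D S →
        ((G.D \ S).ncard : ℝ) ≤ ε * (G.D.ncard : ℝ) := by
  classical
  set q := Fintype.card F with hq
  have hq2 : 2 ≤ q := Fintype.one_lt_card
  set K : ℝ := 2 * ((q ^ r : ℕ) : ℝ) ^ r with hK
  have hqr : (0:ℝ) < ((q ^ r : ℕ) : ℝ) := by
    have : 0 < q ^ r := Nat.pow_pos (by omega)
    exact_mod_cast this
  have hKpos : 0 < K := by positivity
  obtain ⟨N, hN⟩ := density_hales_jewett (Fin r → F) (ε / K) (by positivity)
  refine ⟨max N (r + 1), fun n hn V Q _ _ _ _ G hdim k lam hD S hS => ?_⟩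
  have hr1 : 1 ≤ r := G.ht.trans G.htr
  have hnN : N ≤ n := (le_max_left _ _).trans hn
  have hnr : r + 1 ≤ n := (le_max_right _ _).trans hn
  set T := G.D \ S with hT
  let A : Set (Fin n → Fin r → F) := {w | LinearIndependent F (G.tup w) ∧
    blk G.φ (span F (Set.range (G.tup w))) ∈ T}
  have hTA : T.ncard ≤ A.ncard := by
    have h1 : T ⊆ (fun w => blk G.φ (span F (Set.range (G.tup w)))) '' A := by
      intro b hb
      obtain ⟨w, hw1, hw2⟩ := G.exists_word hb.1
      exact ⟨w, ⟨hw1, hw2 ▸ hb⟩, hw2.symm⟩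
    exact (Set.ncard_le_ncard h1 (Set.toFinite _)).trans (Set.ncard_image_le (Set.toFinite _))
  have hfree : LineFree A := by
    intro u hu
    by_contra hcon
    push Not at hcon
    obtain ⟨k0, hk0⟩ := hu
    let x : Fin r → V := fun i => G.c + G.j (fun k => (u k).getD 0 i)
    let vp : Fin n → F := fun k => if u k = none then 1 else 0
    have hp : G.j vp ≠ 0 := by
      intro h
      have h1 : vp = 0 := G.j_inj (by rw [h, map_zero])
      have h2 := congrFun h1 k0
      simp [vp, hk0] at h2
    have htup : ∀ s : Fin r → F, G.tup (pt u s) = sh x (G.j vp) s := by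
      intro s
      funext i
      simp only [Geo.tup, sh, x, add_assoc, add_right_inj]
      rw [← map_smul, ← map_add]
      congr 1
      funext k
      simp only [pt, Pi.add_apply, Pi.smul_apply, vp, smul_eq_mul]
      cases hk : u k <;> simp
    obtain ⟨W, B', D', h1, h2, h3, h4, h5, -, h7⟩ := G.exists_trade x (fun i => ⟨_, rfl⟩) vp hp T
      Set.sdiff_subset (fun s => by
        have := hcon s
        rw [← htup s]
        exact this)
    have hSD' : S ⊆ D' := by
      intro b hb
      exact h3 ⟨hS.1 hb, fun h => h.2 hb⟩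
    exact G.not_iso hdim h1 h4 h5 h7 (hS.2 D' (h2 k lam hD) hSD')
  have hdens := hN (Fin n) (by simpa using hnN) A hfree
  have hcardw : Fintype.card (Fin n → Fin r → F) = (q ^ r) ^ n := by
    rw [Fintype.card_fun, Fintype.card_fun, Fintype.card_fin, Fintype.card_fin]
  rw [dens_eq, hcardw, div_lt_div_iff₀ (by positivity) hKpos] at hdens
  have hb := G.card_blocks hr1 hnr
  have hTA' : (T.ncard : ℝ) ≤ A.ncard := by exact_mod_cast hTA
  have h9 : (T.ncard : ℝ) * K ≤ ε * ((q ^ r : ℕ) : ℝ) ^ n := by
    have h10 : (((q ^ r) ^ n : ℕ) : ℝ) = ((q ^ r : ℕ) : ℝ) ^ n := by push_cast; ring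
    rw [h10] at hdens
    exact (mul_le_mul_of_nonneg_right hTA' hKpos.le).trans hdens.le
  have h11 : (T.ncard : ℝ) * K ≤ (ε * (G.D.ncard : ℝ)) * K := by
    calc (T.ncard : ℝ) * K ≤ ε * ((q ^ r : ℕ) : ℝ) ^ n := h9
      _ ≤ ε * (K * (G.D.ncard : ℝ)) := mul_le_mul_of_nonneg_left hb hε.le
      _ = _ := by ring
  exact le_of_mul_le_mul_right h11 hKpos

end Pool.Agent.Y385.GD
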