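import Pool.Agent.Y385.GD.Geo4

namespace Pool.Agent.Y385.GD

open Module Submodule

/-- The number of `d`-dimensional subspaces of the space of dimension `m` over `F`. -/
noncomputable def subspaceCount (F : Type) [Field F] (m d : ℕ) : ℕ :=
  {K : Submodule F (Fin m → F) | finrank F K = d}.ncard

lemma finrank_map_add {F V V' : Type} [Field F] [AddCommGroup V] [Module F V]
    [FiniteDimensional F V] [AddCommGroup V'] [Module F V'] (f : V →ₗ[F] V')
    {H : Submodule F V} (h : LinearMap.ker f ≤ H) :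
    finrank F ↥(H.map f) + finrank F ↥(LinearMap.ker f) = finrank F H := by
  have h1 := LinearMap.finrank_range_add_finrank_ker (f.domRestrict H)
  rw [LinearMap.range_domRestrict, LinearMap.ker_domRestrict] at h1
  rw [← h1]
  congr 1
  exact (Submodule.comapSubtypeEquivOfLe h).finrank_eq.symm

lemma count_above {F V : Type} [Field F] [AddCommGroup V] [Module F V]
    [FiniteDimensional F V] {U : Submodule F V} {t r m : ℕ} (hU : finrank F U = t)
    (hm : finrank F V = m) (htr : t ≤ r) :
    {H : Submodule F V | finrank F H = r ∧ U ≤ H}.ncard = subspaceCount F (m - t) (r - t) := by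
  have hq : finrank F (V ⧸ U) = finrank F (Fin (m - t) → F) := by
    rw [Submodule.finrank_quotient, hU, hm, Module.finrank_fin_fun]
  let e : (V ⧸ U) ≃ₗ[F] (Fin (m - t) → F) := LinearEquiv.ofFinrankEq _ _ hq
  let f : V →ₗ[F] (Fin (m - t) → F) := (e : (V ⧸ U) →ₗ[F] (Fin (m - t) → F)) ∘ₗ U.mkQ
  have hker : LinearMap.ker f = U := by
    rw [LinearEquiv.ker_comp, Submodule.ker_mkQ]
  have hsurj : Function.Surjective f := e.surjective.comp U.mkQ_surjective
  have hdim : ∀ H : Submodule F V, U ≤ H → finrank F ↥(H.map f) + t = finrank F H := by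
    intro H hH
    have := finrank_map_add f (H := H) (by rw [hker]; exact hH)
    rwa [hker, hU] at this
  unfold subspaceCount
  refine Set.ncard_congr (fun H _ => H.map f) ?_ ?_ ?_
  · rintro H ⟨hH1, hH2⟩
    have := hdim H hH2
    change finrank F ↥(H.map f) = r - t
    omega
  · rintro H K ⟨-, hH⟩ ⟨-, hK⟩ h
    have h1 : (H.map f).comap f = (K.map f).comap f := congrArg (Submodule.comap f) h
    rw [Submodule.comap_map_eq, Submodule.comap_map_eq, hker, sup_eq_left.2 hH,
      sup_eq_left.2 hK] at h1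
    exact h1
  · intro K hK
    have h1 : U ≤ K.comap f := by
      rw [← hker]
      intro v hv
      rw [Submodule.mem_comap, LinearMap.mem_ker.1 hv]
      exact K.zero_mem
    have h2 : (K.comap f).map f = K := Submodule.map_comap_eq_of_surjective hsurj K
    refine ⟨K.comap f, ⟨?_, h1⟩, h2⟩
    have := hdim _ h1
    rw [h2] at this
    have hK' : finrank F K = r - t := hK
    omega

namespace Geo

variable {F V Q : Type} [Field F] [AddCommGroup V] [Module F V]
  [FiniteDimensional F V] [Finite Q] {n t r : ℕ} (G : Geo F V Q n t r)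

/-- The blocks form a design. -/
theorem isDesign_D {m : ℕ} (hm : finrank F V = m)
    (hind : ∀ A : Set Q, A.ncard = t → finrank F ↥(span F (G.φ '' A)) = t) :
    IsDesign t (G.θ r) (subspaceCount F (m - t) (r - t)) G.D := by
  constructor
  · rintro _ ⟨H, hH, ⟨y, hy⟩, rfl⟩
    rw [G.card H y hy, hH]
  · intro A hA
    have hAne : A.Nonempty := by
      rw [← Set.ncard_pos (Set.toFinite A), hA]
      exact G.ht
    obtain ⟨a, ha⟩ := hAne
    have h1 : {b ∈ G.D | A ⊆ b} =
        (fun H => blk G.φ H) '' {H : Submodule F V | finrank F H = r ∧ span F (G.φ '' A) ≤ H} := by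
      ext b
      constructor
      · rintro ⟨⟨H, hH, -, rfl⟩, hAb⟩
        refine ⟨H, ⟨hH, ?_⟩, rfl⟩
        rw [Submodule.span_le]
        rintro _ ⟨y, hy, rfl⟩
        exact hAb hy
      · rintro ⟨H, ⟨hH, hAH⟩, rfl⟩
        have h2 : A ⊆ blk G.φ H := fun y hy => hAH (Submodule.subset_span ⟨y, hy, rfl⟩)
        exact ⟨⟨H, hH, ⟨a, h2 ha⟩, rfl⟩, h2⟩
    rw [h1, Set.InjOn.ncard_image, count_above (hind A hA) hm G.htr]
    rintro H ⟨-, hH⟩ K ⟨-, hK⟩ h
    have h2 : G.φ a ∈ H := hH (Submodule.subset_span ⟨a, ha, rfl⟩)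
    have h3 : G.φ a ∈ K := hK (Submodule.subset_span ⟨a, ha, rfl⟩)
    exact G.blk_inj ⟨a, h2⟩ ⟨a, h3⟩ h

end Geo

end Pool.Agent.Y385.GD
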