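import Pool.Agent.Y385.GD.Trade

namespace Pool.Agent.Y385.GD

open Module Submodule

section Lin

variable {F V : Type} [Field F] [AddCommGroup V] [Module F V] [FiniteDimensional F V]

lemma finrank_sup_single_le (H : Submodule F V) (p : V) :
    finrank F ↥(H ⊔ span F {p}) ≤ finrank F H + 1 := by
  have h := Submodule.finrank_sup_add_finrank_inf_eq H (span F {p})
  have h1 : finrank F ↥(span F {p}) ≤ 1 := by
    by_cases hp : p = 0
    · rw [hp, Submodule.span_zero_singleton, finrank_bot]; exact zero_le_one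
    · rw [finrank_span_singleton hp]
  omega

lemma finrank_sup_single {H : Submodule F V} {p : V} (hp : p ∉ H) :
    finrank F ↥(H ⊔ span F {p}) = finrank F H + 1 := by
  have h := Submodule.finrank_sup_add_finrank_inf_eq H (span F {p})
  have hp0 : p ≠ 0 := fun h0 => hp (h0 ▸ H.zero_mem)
  have h1 : finrank F ↥(span F {p}) = 1 := finrank_span_singleton hp0
  have h2 : H ⊓ span F {p} = ⊥ := by
    rw [Submodule.eq_bot_iff]
    intro v hv
    obtain ⟨hv1, hv2⟩ := Submodule.mem_inf.1 hv
    obtain ⟨a, rfl⟩ := Submodule.mem_span_singleton.1 hv2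
    by_cases ha : a = 0
    · rw [ha, zero_smul]
    · exfalso
      apply hp
      have := H.smul_mem a⁻¹ hv1
      rwa [smul_smul, inv_mul_cancel₀ ha, one_smul] at this
  rw [h2, finrank_bot] at h
  omega

lemma exists_between {U K : Submodule F V} (hUK : U ≤ K) {r : ℕ} (h1 : finrank F U ≤ r)
    (h2 : r ≤ finrank F K) : ∃ H : Submodule F V, U ≤ H ∧ H ≤ K ∧ finrank F H = r := by
  induction r with
  | zero => exact ⟨U, le_refl _, hUK, by omega⟩
  | succ r ih =>
    by_cases hU : finrank F U = r + 1
    · exact ⟨U, le_refl _, hUK, hU⟩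
    · obtain ⟨H, hH1, hH2, hH3⟩ := ih (by omega) (by omega)
      have hne : ¬ K ≤ H := fun hKH => by
        have := Submodule.finrank_mono hKH
        omega
      obtain ⟨w, hwK, hwH⟩ := SetLike.not_le_iff_exists.1 hne
      refine ⟨H ⊔ span F {w}, hH1.trans le_sup_left, sup_le hH2 ?_, ?_⟩
      · rw [Submodule.span_singleton_le_iff_mem]; exact hwK
      · rw [finrank_sup_single hwH, hH3]

lemma exists_avoid {U : Submodule F V} {v : V} (hv : v ∉ U) {r : ℕ} (h1 : finrank F U ≤ r)
    (h2 : r < finrank F V) : ∃ H : Submodule F V, U ≤ H ∧ v ∉ H ∧ finrank F H = r := by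
  obtain ⟨f, hf1, hf2⟩ := Submodule.exists_le_ker_of_notMem hv
  have hker : finrank F (LinearMap.ker f) + 1 = finrank F V := by
    have h := LinearMap.finrank_range_add_finrank_ker f
    have h3 : finrank F ↥(LinearMap.range f) = 1 := by
      have : LinearMap.range f = ⊤ := by
        rw [LinearMap.range_eq_top]
        exact LinearMap.surjective (f := f) (fun h0 => hf1 (by rw [h0]; rfl))
      rw [this, finrank_top, finrank_self]
    omega
  obtain ⟨H, hH1, hH2, hH3⟩ := exists_between hf2 h1 (by omega)
  exact ⟨H, hH1, fun hvH => hf1 (hH2 hvH), hH3⟩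

/-- Shifting the members of a family along a vector. -/
def sh {r : ℕ} (x : Fin r → V) (p : V) (s : Fin r → F) : Fin r → V := fun i => x i + s i • p

omit [FiniteDimensional F V] in
lemma sh_sh {r : ℕ} (x : Fin r → V) (p : V) (s s' : Fin r → F) :
    sh (sh x p s) p s' = sh x p (s + s') := by
  funext i
  simp only [sh, Pi.add_apply, add_smul]
  abel

omit [FiniteDimensional F V] in
lemma sh_zero {r : ℕ} (x : Fin r → V) (p : V) : sh x p (0 : Fin r → F) = x := by
  funext i
  simp [sh]

omit [FiniteDimensional F V] in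
lemma notMem_span_of_line {r : ℕ} {x : Fin r → V} {p : V} (hp : p ≠ 0)
    (h : ∀ s : Fin r → F, LinearIndependent F (sh x p s)) : p ∉ span F (Set.range x) := by
  intro hmem
  obtain ⟨a, ha⟩ := (Submodule.mem_span_range_iff_exists_fun F).1 hmem
  have hex : ∃ i, a i ≠ 0 := by
    by_contra hcon
    push Not at hcon
    apply hp
    rw [← ha]
    simp [hcon]
  obtain ⟨i, hi⟩ := hex
  have h1 := h (Pi.single i (-(a i)⁻¹))
  rw [Fintype.linearIndependent_iff] at h1
  apply hi
  apply h1 a _ i
  have e : ∑ k, a k • sh x p (Pi.single i (-(a i)⁻¹)) k =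
      ∑ k, a k • x k + (∑ k, a k * (Pi.single i (-(a i)⁻¹) : Fin r → F) k) • p := by
    simp only [sh, smul_add, Finset.sum_add_distrib, smul_smul, Finset.sum_smul]
  rw [e, ha]
  have e2 : ∑ k, a k * (Pi.single i (-(a i)⁻¹) : Fin r → F) k = -1 := by
    rw [Finset.sum_eq_single i]
    · rw [Pi.single_eq_same]
      field_simp
    · intro k _ hk
      rw [Pi.single_eq_of_ne hk, mul_zero]
    · intro hcon
      exact absurd (Finset.mem_univ i) hcon
  rw [e2]
  simp

omit [FiniteDimensional F V] in
lemma finrank_span_family {r : ℕ} {x : Fin r → V} (h : LinearIndependent F x) :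
    finrank F ↥(span F (Set.range x)) = r := by
  rw [finrank_span_eq_card h, Fintype.card_fin]

/-- Complements of a line in the span of a family and the line. -/
lemma exists_sh_of_compl {r : ℕ} {x : Fin r → V} {p : V} (hx : LinearIndependent F x)
    (hp : p ∉ span F (Set.range x)) {H : Submodule F V}
    (hW : H ≤ span F (Set.range x) ⊔ span F {p}) (hr : finrank F H = r) (hpH : p ∉ H)
    (hli : ∀ s : Fin r → F, LinearIndependent F (sh x p s)) :
    ∃ s : Fin r → F, H = span F (Set.range (sh x p s)) := by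
  have h1 : H ⊔ span F {p} = span F (Set.range x) ⊔ span F {p} := by
    apply Submodule.eq_of_le_of_finrank_eq
    · exact sup_le hW le_sup_right
    · rw [finrank_sup_single hpH, finrank_sup_single hp, hr, finrank_span_family hx]
  have h2 : ∀ i, ∃ c : F, x i + c • p ∈ H := by
    intro i
    have hxi : x i ∈ H ⊔ span F {p} := by
      rw [h1]
      exact (le_sup_left : span F (Set.range x) ≤ _) (Submodule.subset_span ⟨i, rfl⟩)
    obtain ⟨y, hy, z, hz, hyz⟩ := Submodule.mem_sup.1 hxi
    obtain ⟨c, rfl⟩ := Submodule.mem_span_singleton.1 hz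
    refine ⟨-c, ?_⟩
    rw [← hyz]
    have : y + c • p + -c • p = y := by rw [neg_smul]; abel
    rwa [this]
  choose s hs using h2
  refine ⟨s, ?_⟩
  symm
  apply Submodule.eq_of_le_of_finrank_eq
  · rw [Submodule.span_le]
    rintro _ ⟨i, rfl⟩
    exact hs i
  · rw [finrank_span_family (hli s), hr]

omit [FiniteDimensional F V] in
lemma sh_span_le {r : ℕ} (x : Fin r → V) (p : V) (s : Fin r → F) :
    span F (Set.range (sh x p s)) ≤ span F (Set.range x) ⊔ span F {p} := by
  rw [Submodule.span_le]
  rintro _ ⟨i, rfl⟩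
  apply Submodule.add_mem
  · exact (le_sup_left : span F (Set.range x) ≤ _) (Submodule.subset_span ⟨i, rfl⟩)
  · exact (le_sup_right : span F {p} ≤ _) (Submodule.smul_mem _ _ (Submodule.mem_span_singleton_self p))

end Lin

end Pool.Agent.Y385.GD
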