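import Pool.Agent.Y385.GD.Geo5

namespace Pool.Agent.Y385.GD

open Module Submodule
open scoped LinearAlgebra.Projectivization

section PG

variable {F : Type} [Field F] {V : Type} [AddCommGroup V] [Module F V]

lemma pg_rep_mk {v : V} (hv : v ≠ 0) :
    span F {(Projectivization.mk F v hv).rep} = span F {v} := by
  rw [← Projectivization.submodule_eq, Projectivization.submodule_mk]

lemma pg_rep_inj {x y : ℙ F V} (h : x.rep ∈ span F {y.rep}) : x = y := by
  obtain ⟨a, ha⟩ := Submodule.mem_span_singleton.1 h
  rw [← x.mk_rep, ← y.mk_rep]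
  exact (Projectivization.mk_eq_mk_iff' F _ _ x.rep_nonzero y.rep_nonzero).2 ⟨a, ha⟩

lemma pg_mem {v : V} (hv : v ≠ 0) (H : Submodule F V) :
    (Projectivization.mk F v hv).rep ∈ H ↔ v ∈ H :=
  mem_iff_of_span_eq (pg_rep_mk hv) H

lemma pg_adm (H : Submodule F V) : span F ((fun y : ℙ F V => y.rep) '' blk (fun y => y.rep) H) = H := by
  apply le_antisymm
  · rw [Submodule.span_le]
    rintro _ ⟨y, hy, rfl⟩
    exact hy
  · intro v hv
    by_cases h0 : v = 0
    · rw [h0]; exact Submodule.zero_mem _
    · have h1 : (Projectivization.mk F v h0).rep ∈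
          span F ((fun y : ℙ F V => y.rep) '' blk (fun y => y.rep) H) :=
        Submodule.subset_span ⟨Projectivization.mk F v h0, (pg_mem h0 H).2 hv, rfl⟩
      exact (pg_mem h0 _).1 h1

lemma pg_reg (H : Submodule F V) [FiniteDimensional F V] (hr : 2 ≤ finrank F H) (x : ℙ F V)
    (hx : x.rep ∈ H) :
    x.rep ∈ span F ((fun y : ℙ F V => y.rep) '' (blk (fun y => y.rep) H \ {x})) := by
  have h1 : ¬ H ≤ span F {x.rep} := by
    intro hle
    have := Submodule.finrank_mono hle
    rw [finrank_span_singleton x.rep_nonzero] at this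
    omega
  obtain ⟨h, hh, hhx⟩ := SetLike.not_le_iff_exists.1 h1
  have key : ∀ v ∈ H, v ∉ span F {x.rep} →
      v ∈ span F ((fun y : ℙ F V => y.rep) '' (blk (fun y => y.rep) H \ {x})) := by
    intro v hv hvx
    have h0 : v ≠ 0 := fun h0 => hvx (h0 ▸ Submodule.zero_mem _)
    rw [← pg_mem h0]
    refine Submodule.subset_span ⟨Projectivization.mk F v h0, ⟨(pg_mem h0 H).2 hv, ?_⟩, rfl⟩
    intro heq
    apply hvx
    have heq' : Projectivization.mk F v h0 = x := heq
    rw [← pg_mem h0, heq']
    exact Submodule.mem_span_singleton_self _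
  have h2 := key h hh hhx
  have h3 := key (x.rep + h) (H.add_mem hx hh) (fun hmem => hhx (by
    have := Submodule.sub_mem _ hmem (Submodule.mem_span_singleton_self x.rep)
    rwa [add_sub_cancel_left] at this))
  have := Submodule.sub_mem _ h3 h2
  rwa [add_sub_cancel_right] at this

lemma pg_card [Finite F] [FiniteDimensional F V] (H : Submodule F V) :
    (blk (fun y : ℙ F V => y.rep) H).ncard = ∑ i ∈ Finset.range (finrank F H), Nat.card F ^ i := by
  rw [← Projectivization.card_of_finrank F H rfl]
  rw [← Set.ncard_range_of_injective (Projectivization.map_injective (τ := RingHom.id F) H.subtype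
    H.subtype_injective)]
  congr 1
  ext y
  constructor
  · intro hy
    have hy' : y.rep ∈ H := hy
    have hne : (⟨y.rep, hy'⟩ : H) ≠ 0 := fun h => y.rep_nonzero (congrArg Subtype.val h)
    refine ⟨Projectivization.mk F ⟨y.rep, hy'⟩ hne, ?_⟩
    rw [Projectivization.map_mk]
    exact y.mk_rep
  · rintro ⟨z, rfl⟩
    induction z using Projectivization.ind with
    | h v hv =>
      rw [Projectivization.map_mk]
      change (Projectivization.mk F (H.subtype v) _).rep ∈ H
      rw [pg_mem]
      exact v.2

lemma pg_span_pair {x y : ℙ F V} [FiniteDimensional F V] (hxy : x ≠ y) :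
    finrank F ↥(span F {x.rep, y.rep}) = 2 := by
  have h1 : x.rep ∉ span F {y.rep} := fun h => hxy (pg_rep_inj h)
  have h2 : span F {x.rep, y.rep} = span F {y.rep} ⊔ span F {x.rep} := by
    rw [Submodule.span_insert, sup_comm]
  rw [h2, finrank_sup_single h1, finrank_span_singleton y.rep_nonzero]

open Classical in
lemma pg_transfer (U : Set (ℙ F V)) (W : Submodule F V) (z : ℙ F V) (hz : z ∈ U)
    (hzW : z.rep ∉ W)
    (h : ∀ A ⊆ U, A.ncard = 2 → (∃ u ∈ A, u.rep ∉ W) →
      ∀ y : ℙ F V, y.rep ∈ span F ((fun y : ℙ F V => y.rep) '' A) → y ∈ U)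
    (y : ℙ F V) (hy : y.rep ∈ span F ((fun y : ℙ F V => y.rep) '' U)) : y ∈ U := by
  -- the vectors whose points lie in `U`
  let N : Set V := {v | ∀ x : ℙ F V, x.rep ∈ span F {v} → x ∈ U}
  have hmemN : ∀ x ∈ U, x.rep ∈ N := by
    intro x hx w hw
    rw [pg_rep_inj hw]
    exact hx
  have hsmul : ∀ (a : F) (v : V), v ∈ N → a • v ∈ N := by
    intro a v hv x hx
    apply hv
    exact (Submodule.span_singleton_le_iff_mem _ _).2
      (Submodule.smul_mem _ a (Submodule.mem_span_singleton_self v)) hx
  have hNmk : ∀ (v : V) (h0 : v ≠ 0), v ∈ N → Projectivization.mk F v h0 ∈ U := by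
    intro v h0 hv
    exact hv _ ((pg_mem h0 _).2 (Submodule.mem_span_singleton_self v))
  -- the direct rule
  have rule : ∀ v w : V, v ∈ N → w ∈ N → v ∉ W → v + w ∈ N := by
    intro v w hv hw hvW
    have hv0 : v ≠ 0 := fun h0 => hvW (h0 ▸ W.zero_mem)
    by_cases hdep : w ∈ span F {v}
    · obtain ⟨a, rfl⟩ := Submodule.mem_span_singleton.1 hdep
      have : v + a • v = (1 + a) • v := by rw [add_smul, one_smul]
      rw [this]
      exact hsmul _ _ hv
    · have hw0 : w ≠ 0 := fun h0 => hdep (h0 ▸ Submodule.zero_mem _)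
      intro x hx
      have hne : Projectivization.mk F v hv0 ≠ Projectivization.mk F w hw0 := by
        intro heq
        apply hdep
        obtain ⟨a, ha⟩ := (Projectivization.mk_eq_mk_iff' F _ _ hw0 hv0).1 heq.symm
        exact Submodule.mem_span_singleton.2 ⟨a, ha⟩
      apply h {Projectivization.mk F v hv0, Projectivization.mk F w hw0}
      · rintro u (rfl | rfl)
        · exact hNmk v hv0 hv
        · exact hNmk w hw0 hw
      · exact Set.ncard_pair hne
      · exact ⟨_, Or.inl rfl, fun hmem => hvW ((pg_mem hv0 W).1 hmem)⟩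
      · rw [Set.image_pair]
        have h1 : v ∈ span F {(Projectivization.mk F v hv0).rep, (Projectivization.mk F w hw0).rep} := by
          rw [← pg_mem hv0]
          exact Submodule.subset_span (Or.inl rfl)
        have h2 : w ∈ span F {(Projectivization.mk F v hv0).rep, (Projectivization.mk F w hw0).rep} := by
          rw [← pg_mem hw0]
          exact Submodule.subset_span (Or.inr rfl)
        exact (Submodule.span_singleton_le_iff_mem _ _).2 (Submodule.add_mem _ h1 h2) hx
  have hadd : ∀ v w : V, v ∈ N → w ∈ N → v + w ∈ N := by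
    intro v w hv hw
    by_cases hvW : v ∈ W
    · by_cases hwW : w ∈ W
      · have hz1 : z.rep ∈ N := hmemN z hz
        have e1 : z.rep + v ∈ N := rule _ _ hz1 hv hzW
        have e2 : z.rep + -w ∈ N := rule _ _ hz1 (by
          have := hsmul (-1) w hw
          rwa [neg_one_smul] at this) hzW
        have e3 : -(z.rep + -w) ∈ N := by
          have := hsmul (-1) _ e2
          rwa [neg_one_smul] at this
        have e4 : z.rep + v ∉ W := fun hmem => hzW (by
          have := W.sub_mem hmem hvW
          rwa [add_sub_cancel_right] at this)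
        have := rule _ _ e1 e3 e4
        have e5 : z.rep + v + -(z.rep + -w) = v + w := by abel
        rwa [e5] at this
      · rw [add_comm]
        exact rule _ _ hw hv hwW
    · exact rule _ _ hv hw hvW
  let M : Submodule F V :=
    { carrier := N
      add_mem' := fun {a b} ha hb => hadd a b ha hb
      zero_mem' := by
        intro x hx
        rw [Submodule.span_zero_singleton] at hx
        exact absurd hx x.rep_nonzero
      smul_mem' := fun a v hv => hsmul a v hv }
  have hM : span F ((fun y : ℙ F V => y.rep) '' U) ≤ M := by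
    rw [Submodule.span_le]
    rintro _ ⟨u, hu, rfl⟩
    exact hmemN u hu
  exact hM hy y (Submodule.mem_span_singleton_self _)

end PG

open Classical in
/-- Projective geometry. -/
noncomputable def pgGeo (F : Type) [Field F] [Finite F] (n r : ℕ) (hr : 2 ≤ r) :
    Geo F (Fin n → F) (ℙ F (Fin n → F)) n 2 r where
  c := 0
  j := LinearMap.id
  j_inj := fun _ _ h => h
  φ := fun y => y.rep
  φ_mem := fun y => ⟨y.rep, by simp⟩
  φ_surj := fun v hv => ⟨Projectivization.mk F v (by simpa using hv), by
    rw [pg_rep_mk]; simp⟩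
  φ_inj := fun x y h => pg_rep_inj h
  star := by
    intro v w A hA h
    have hA1 : A.ncard = 1 := by omega
    obtain ⟨y, rfl⟩ := Set.ncard_eq_one.1 hA1
    refine ⟨y, rfl, ?_⟩
    rwa [Set.image_singleton] at h
  adm := fun H _ _ => pg_adm H
  reg := fun H hH x hx => pg_reg H (by rw [hH]; exact hr) x hx
  θ := fun d => ∑ i ∈ Finset.range d, Nat.card F ^ i
  card := fun H _ _ => pg_card H
  θ_lt := by
    intro d _
    rw [Finset.sum_range_succ]
    have : 0 < Nat.card F ^ d := Nat.pow_pos Nat.card_pos
    omega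
  transfer := pg_transfer
  ht := by norm_num
  htr := hr

end Pool.Agent.Y385.GD
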