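import Mathlib

namespace Pool.Agent.Y385.GD

/-- `B` is the block collection of a `t-(v,k,lam)` design (without repeated blocks) on the finite
point set `Q`. -/
def IsDesign {Q : Type} (t k lam : ℕ) (B : Set (Set Q)) : Prop :=
  (∀ b ∈ B, b.ncard = k) ∧ ∀ A : Set Q, A.ncard = t → {b ∈ B | A ⊆ b}.ncard = lam

section Trade

variable {Q : Type} [Finite Q]

theorem trade_isDesign {t k lam : ℕ} {D T : Set (Set Q)} (hD : IsDesign t k lam D) (hT : T ⊆ D)
    (σ : Equiv.Perm Q) (h1 : ∀ b ∈ T, σ '' b ∈ D → σ '' b ∈ T)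
    (h2 : ∀ A : Set Q, A.ncard = t → {b ∈ T | A ⊆ b}.ncard = {b ∈ T | A ⊆ σ '' b}.ncard) :
    IsDesign t k lam ((D \ T) ∪ (fun b => σ '' b) '' T) := by
  have hinj : Function.Injective (fun b : Set Q => σ '' b) := σ.injective.image_injective
  refine ⟨?_, fun A hA => ?_⟩
  · rintro b (hb | ⟨b', hb', rfl⟩)
    · exact hD.1 b hb.1
    · change (σ '' b').ncard = k
      rw [Set.ncard_image_of_injective _ σ.injective]
      exact hD.1 b' (hT hb')
  · have e1 : {b ∈ (D \ T) ∪ (fun b => σ '' b) '' T | A ⊆ b} =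
        {b ∈ D \ T | A ⊆ b} ∪ (fun b => σ '' b) '' {b ∈ T | A ⊆ σ '' b} := by
      ext b
      simp only [Set.mem_union, Set.mem_setOf_eq, Set.mem_image]
      constructor
      · rintro ⟨hb | ⟨b', hb', rfl⟩, hA'⟩
        · exact Or.inl ⟨hb, hA'⟩
        · exact Or.inr ⟨b', ⟨hb', hA'⟩, rfl⟩
      · rintro (⟨hb, hA'⟩ | ⟨b', ⟨hb', hA'⟩, rfl⟩)
        · exact ⟨Or.inl hb, hA'⟩
        · exact ⟨Or.inr ⟨b', hb', rfl⟩, hA'⟩
    have hdisj : Disjoint {b ∈ D \ T | A ⊆ b} ((fun b => σ '' b) '' {b ∈ T | A ⊆ σ '' b}) := by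
      rw [Set.disjoint_left]
      rintro _ ⟨hb, -⟩ ⟨b', ⟨hb', -⟩, rfl⟩
      exact hb.2 (h1 b' hb' hb.1)
    rw [e1, Set.ncard_union_eq hdisj (Set.toFinite _) (Set.toFinite _),
      Set.ncard_image_of_injective _ hinj, ← h2 A hA, ← hD.2 A hA]
    have e2 : {b ∈ D | A ⊆ b} = {b ∈ D \ T | A ⊆ b} ∪ {b ∈ T | A ⊆ b} := by
      ext b
      simp only [Set.mem_union, Set.mem_setOf_eq, Set.mem_diff]
      constructor
      · rintro ⟨hb, hA'⟩
        by_cases hbT : b ∈ T
        · exact Or.inr ⟨hbT, hA'⟩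
        · exact Or.inl ⟨⟨hb, hbT⟩, hA'⟩
      · rintro (⟨⟨hb, -⟩, hA'⟩ | ⟨hb, hA'⟩)
        · exact ⟨hb, hA'⟩
        · exact ⟨hT hb, hA'⟩
    rw [e2, Set.ncard_union_eq _ (Set.toFinite _) (Set.toFinite _)]
    rw [Set.disjoint_left]
    rintro b ⟨hb, -⟩ ⟨hb', -⟩
    exact hb.2 hb'

open Classical in
/-- Coverage after switching two points. -/
theorem swap_coverage {t : ℕ} {T : Set (Set Q)} (x x' : Q)
    (hsym : ∀ A' : Set Q, x ∉ A' → x' ∉ A' → A'.ncard + 1 = t →
      {b ∈ T | insert x A' ⊆ b}.ncard = {b ∈ T | insert x' A' ⊆ b}.ncard)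
    (A : Set Q) (hA : A.ncard = t) :
    {b ∈ T | A ⊆ b}.ncard = {b ∈ T | A ⊆ (Equiv.swap x x') '' b}.ncard := by
  have key : ∀ b : Set Q, A ⊆ (Equiv.swap x x') '' b ↔ (Equiv.swap x x') '' A ⊆ b := by
    intro b
    constructor
    · intro h
      rintro _ ⟨a, ha, rfl⟩
      obtain ⟨c, hc, hca⟩ := h ha
      rw [← hca, Equiv.swap_apply_self]
      exact hc
    · intro h a ha
      refine ⟨Equiv.swap x x' a, h ⟨a, ha, rfl⟩, ?_⟩
      rw [Equiv.swap_apply_self]
  simp only [key]
  by_cases hx : x ∈ A <;> by_cases hx' : x' ∈ A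
  · have : (Equiv.swap x x') '' A = A := by
      ext y
      constructor
      · rintro ⟨a, ha, rfl⟩
        by_cases h1 : a = x
        · rw [h1, Equiv.swap_apply_left]; exact hx'
        · by_cases h2 : a = x'
          · rw [h2, Equiv.swap_apply_right]; exact hx
          · rw [Equiv.swap_apply_of_ne_of_ne h1 h2]; exact ha
      · intro hy
        refine ⟨Equiv.swap x x' y, ?_, Equiv.swap_apply_self _ _ _⟩
        by_cases h1 : y = x
        · rw [h1, Equiv.swap_apply_left]; exact hx'
        · by_cases h2 : y = x'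
          · rw [h2, Equiv.swap_apply_right]; exact hx
          · rw [Equiv.swap_apply_of_ne_of_ne h1 h2]; exact hy
    rw [this]
  · have e1 : A = insert x (A \ {x}) := by
      rw [Set.insert_diff_singleton, Set.insert_eq_of_mem hx]
    have e2 : (Equiv.swap x x') '' A = insert x' (A \ {x}) := by
      conv_lhs => rw [e1]
      rw [Set.image_insert_eq, Equiv.swap_apply_left]
      congr 1
      have : Set.EqOn (Equiv.swap x x') id (A \ {x}) := by
        intro a ha
        apply Equiv.swap_apply_of_ne_of_ne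
        · exact fun h => ha.2 (by simpa using h)
        · rintro rfl; exact hx' ha.1
      rw [this.image_eq, Set.image_id]
    rw [e2]
    conv_lhs => rw [e1]
    apply hsym
    · simp
    · exact fun h => hx' h.1
    · rw [Set.ncard_diff_singleton_add_one hx (Set.toFinite _), hA]
  · have e1 : A = insert x' (A \ {x'}) := by
      rw [Set.insert_diff_singleton, Set.insert_eq_of_mem hx']
    have e2 : (Equiv.swap x x') '' A = insert x (A \ {x'}) := by
      conv_lhs => rw [e1]
      rw [Set.image_insert_eq, Equiv.swap_apply_right]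
      congr 1
      have : Set.EqOn (Equiv.swap x x') id (A \ {x'}) := by
        intro a ha
        apply Equiv.swap_apply_of_ne_of_ne
        · rintro rfl; exact hx ha.1
        · exact fun h => ha.2 (by simpa using h)
      rw [this.image_eq, Set.image_id]
    rw [e2]
    conv_lhs => rw [e1]
    symm
    apply hsym
    · exact fun h => hx h.1
    · simp
    · rw [Set.ncard_diff_singleton_add_one hx' (Set.toFinite _), hA]
  · have : (Equiv.swap x x') '' A = A := by
      have : Set.EqOn (Equiv.swap x x') id A := by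
        intro a ha
        apply Equiv.swap_apply_of_ne_of_ne
        · rintro rfl; exact hx ha
        · rintro rfl; exact hx' ha
      rw [this.image_eq, Set.image_id]
    rw [this]

end Trade

end Pool.Agent.Y385.GD
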